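import Pool.Agent.Helper57.HS.DefsB

/-!
# HS: goals of the core (sections 1, 3, 4, 5 of `Helper57/HS/paper.md`)

`cd k = 2 ∂_k`, `cdb k = 2 ∂b_k`, `cdM`, `cdbM` are applied to the entries of a matrix. The goals of
`Helper10/SP` (WIRT, WCH, LMF, ARRB, LFIN, ASI, PUE, SWAP, DETI, DIVC, LMID, L2C, ...) and the goal
`S_PHDIV` of `Helper95/Lin` are proved and may be used as hypotheses `(h : S_...)`. Matrix inverses:
`K := (H x)⁻¹`, `H x * K = 1` for positive definite `H x`. For matrix functions `X`, `Y` smooth on `W`: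
`cdM k (X * Y) = cdM k X * Y + X * cdM k Y`, `cdM k (X⁻¹) = - X⁻¹ * cdM k X * X⁻¹`,
`cdbM k X = (cdM k (Xᴴ))ᴴ`, `cdM k (cdbM l X) = cdbM l (cdM k X)`.
-/

open Complex Metric Set Filter Topology MeasureTheory
open scoped ContDiff ComplexConjugate ComplexOrder Manifold Matrix

namespace Pool.Agent.Helper15.HS

open Pool.Agent.Helper95.Lin Pool.Agent.Helper16.Abund Pool.Agent.Helper92.Orb
  Pool.Agent.Helper10.SP Pool.Agent.Helper95.RK Pool.Agent.Helper57.HS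

universe u v

/-! ## 1. Matrix calculus, the Chern–Lu identity -/

/-- MCAL. Calculus of `cdM`, `cdbM`. USES: WIRT.
PROOF. Entrywise from `WIRT`. The entries of `X⁻¹ = (det X)⁻¹ adj X` are smooth where `det X ≠ 0`; differentiate
`X * X⁻¹ = 1`. Last item: `cd k (log det)`: Jacobi's formula `cd k (det X) = tr (adj X * cdM k X)` (the determinant is a
polynomial in the entries); for positive definite `X` the determinant is real and positive near `x`. -/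
def S_MCAL : Prop := ∀ {n m : ℕ} (W : Set (Cn n)), IsOpen W →
  ∀ X Y : Cn n → Matrix (Fin m) (Fin m) ℂ,
  (∀ i j, ContDiffOn ℝ ∞ (fun x => X x i j) W) → (∀ i j, ContDiffOn ℝ ∞ (fun x => Y x i j) W) →
  (∀ k i j, ContDiffOn ℝ ∞ (fun x => cdM k X x i j) W ∧
    ContDiffOn ℝ ∞ (fun x => cdbM k X x i j) W) ∧
  (∀ i j, ContDiffOn ℝ ∞ (fun x => (X x * Y x) i j) W) ∧
  (∀ x ∈ W, ∀ k, cdM k (fun y => X y * Y y) x = cdM k X x * Y x + X x * cdM k Y x ∧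
    cdbM k (fun y => X y * Y y) x = cdbM k X x * Y x + X x * cdbM k Y x ∧
    cdM k (fun y => (X y)ᴴ) x = (cdbM k X x)ᴴ ∧ cdbM k (fun y => (X y)ᴴ) x = (cdM k X x)ᴴ ∧
    ∀ l, cdM k (cdbM l X) x = cdbM l (cdM k X) x) ∧
  ((∀ x ∈ W, (X x).det ≠ 0) → (∀ i j, ContDiffOn ℝ ∞ (fun x => (X x)⁻¹ i j) W) ∧
    ∀ x ∈ W, ∀ k, cdM k (fun y => (X y)⁻¹) x = - ((X x)⁻¹ * cdM k X x * (X x)⁻¹) ∧
      cdbM k (fun y => (X y)⁻¹) x = - ((X x)⁻¹ * cdbM k X x * (X x)⁻¹)) ∧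
  ((∀ x ∈ W, (X x).PosDef) → ContDiffOn ℝ ∞ (ld X) W ∧ ∀ x ∈ W, ∀ k,
    cd k (fun y => ((ld X y : ℝ) : ℂ)) x = Matrix.trace (cdM k X x * (X x)⁻¹) ∧
    cdb k (fun y => ((ld X y : ℝ) : ℂ)) x = Matrix.trace (cdbM k X x * (X x)⁻¹))

/-- CSY. The symmetries of the curvature and its trace. USES: WIRT, MCAL.
PROOF. `crv H x i j k l = - (cdbM l (Gam H k) x * H x) i j`. Closedness: `cd k (H i j) = cd i (H k j)`, conjugated: `cdb l (H i j)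
= cdb j (H i l)`; insert into `crv i j k l = - cd k (cdb l (H i j)) + ∑ p q, cd k (H i p) H⁻¹ p q cdb l (H q j)`. The last item:
`∑ k l, Q⁻¹ l k crv i j k l = ∑ k l, Q⁻¹ l k crv k l i j = - tr (cdbM j (Gam Q i)) = - cdb j (cd i (log det Q)) = - rho i j`. -/
def S_CSY : Prop := ∀ {n : ℕ} (W : Set (Cn n)), IsOpen W →
  ∀ H : Cn n → Matrix (Fin n) (Fin n) ℂ, (∀ x ∈ W, (H x).PosDef) →
  (∀ i j, ContDiffOn ℝ ∞ (fun x => H x i j) W) → ∀ x ∈ W,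
  (∀ i j k l, crv H x i j k l = - (cdbM l (Gam H k) x * H x) i j) ∧
  (∀ i j k l, conj (crv H x i j k l) = crv H x j i l k) ∧
  (CHF H W → (∀ i j k l, crv H x i j k l = crv H x k j i l ∧ crv H x i j k l = crv H x i l k j) ∧
    ∀ i j, ∑ k, ∑ l, (H x)⁻¹ l k * crv H x i j k l = - rho H x i j)

/-- CLG. The Chern–Lu identity, general form. USES: WIRT, MCAL, CSY.
PROOF. `K := Q⁻¹`, `A_k := Gam Q k - Γ k`. (1) `cdM k (Y K) = Γ_k Y K - Y K (cdM k Q) K`. (2) `cdbM l Y = (cdM l Y)ᴴ = Y (Γ_l)ᴴ`,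
`cdbM l Q = Q (Gam Q l)ᴴ`, so `cdbM l (Y K) = Y Γ_lᴴ K - Y K Q (Gam Q l)ᴴ K`. (3) `tr (Y K)` is real. By (1) `cd k (tr (Y K)) =
- tr (A_k Y K)`; apply `cdb l`: `- tr (cdbM l A_k Y K) - tr (A_k cdbM l (Y K)) = - tr (cdbM l (Gam Q k) Y K) + tr (cdbM l (Γ k) Y K) +
tr (A_k Y A_lᴴ K)`. Multiply by `K l k` and sum: by `CSY` `∑ K l k (- cdbM l (Gam Q k)) = - rho Q * K = - (Q - η) K`. (`trL Q f =
∑ K l k LM f k l`, `LM f k l = cd k (cdb l f) = cdb l (cd k f)`.) -/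
def S_CLG : Prop := ∀ {n : ℕ} (W : Set (Cn n)), IsOpen W →
  ∀ (Q Y η : Cn n → Matrix (Fin n) (Fin n) ℂ) (Γ : Fin n → Cn n → Matrix (Fin n) (Fin n) ℂ),
  CHF Q W → (∀ x ∈ W, (Q x).PosDef) → (∀ x ∈ W, rho Q x = Q x - η x) →
  (∀ i j, ContDiffOn ℝ ∞ (fun x => Y x i j) W) → (∀ x ∈ W, (Y x).IsHermitian) →
  (∀ k i j, ContDiffOn ℝ ∞ (fun x => Γ k x i j) W) →
  (∀ x ∈ W, ∀ k, cdM k Y x = Γ k x * Y x) → ∀ x ∈ W,
  (∀ k, cdM k (fun y => Y y * (Q y)⁻¹) x =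
    Γ k x * (Y x * (Q x)⁻¹) - Y x * (Q x)⁻¹ * Gam Q k x) ∧
  (∀ l, cdbM l (fun y => Y y * (Q y)⁻¹) x = - (Y x * (Gam Q l x - Γ l x)ᴴ * (Q x)⁻¹)) ∧
  ContDiffOn ℝ ∞ (fun y => (Matrix.trace (Y y * (Q y)⁻¹)).re) W ∧
  trL Q (fun y => (Matrix.trace (Y y * (Q y)⁻¹)).re) x =
    - Matrix.trace (Y x * (Q x)⁻¹) + Matrix.trace (η x * (Q x)⁻¹ * Y x * (Q x)⁻¹) +
    ∑ k, ∑ l, (Q x)⁻¹ l k * Matrix.trace (cdbM l (Γ k) x * Y x * (Q x)⁻¹) +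
    ∑ k, ∑ l, (Q x)⁻¹ l k *
      Matrix.trace ((Gam Q k x - Γ k x) * Y x * (Gam Q l x - Γ l x)ᴴ * (Q x)⁻¹)

/-- CL. The Chern–Lu identity for a Hermitian metric `H` (not necessarily Kähler). USES: MCAL, CSY, CLG.
PROOF. `CLG` with `Y = H`, `Γ k = Gam H k`: the third term is `∑ K l k (cdbM l (Gam H k) H) i j K j i = - crvP H K K` by `CSY`. The
last term is real and `≥ 0`: with `Kᵀ` positive definite, `K l k = ∑ a, conj (s a l) (s a k)`, it is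
`∑ a, tr (B_a H B_aᴴ K)`, `B_a := ∑ k, s a k • A_k`, and `tr (B H Bᴴ K) ≥ 0` for `H, K` positive definite. -/
def S_CL : Prop := ∀ {n : ℕ} (W : Set (Cn n)), IsOpen W →
  ∀ Q H η : Cn n → Matrix (Fin n) (Fin n) ℂ, CHF Q W → (∀ x ∈ W, (Q x).PosDef) →
  (∀ x ∈ W, rho Q x = Q x - η x) → (∀ i j, ContDiffOn ℝ ∞ (fun x => H x i j) W) →
  (∀ x ∈ W, (H x).PosDef) → ∀ x ∈ W, 0 ≤ AAt H Q x ∧
  (trL Q (fun y => (Matrix.trace (H y * (Q y)⁻¹)).re) x).re =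
    - (Matrix.trace (H x * (Q x)⁻¹)).re + (Matrix.trace (η x * (Q x)⁻¹ * H x * (Q x)⁻¹)).re -
    KKt H Q x + AAt H Q x

/-- Nonpositive real bisectional curvature. -/
def RBC {n : ℕ} (H : Cn n → Matrix (Fin n) (Fin n) ℂ) (W : Set (Cn n)) : Prop :=
  ∀ x ∈ W, ∀ K : Matrix (Fin n) (Fin n) ℂ, K.PosSemidef → (crvP H K K x).re ≤ 0

/-- SGN. Royden's lemma. USES: CSY.
PROOF. Write `K - conj(f) ⊗ f = ∑_{a ≥ 1} conj(e_a) ⊗ e_a` (spectral theorem), `e_0 := f`, so `K j i = ∑_a conj (e_a j) e_a i` and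
`crvP H K K x = ∑_{a, b} R(a, a, b, b)`, `R(a, b, c, d) := ∑ crv i j k l e_a i conj (e_b j) e_c k conj (e_d l)`. For `ζ : index → {1, I, -1,
-I}` put `v := ∑ ζ_a e_a`. The average over all `ζ` of `∑ crv v v̄ v v̄` is `∑_{a,b} (R(a,a,b,b) + R(a,b,b,a)) - ∑_a R(a,a,a,a) =
2 crvP - ∑_a R(a,a,a,a)` (average of `ζ_a conj ζ_b ζ_c conj ζ_d`; `R(a,b,b,a) = R(b,b,a,a)` by `CSY`). It is `≤ 0`, and `R(a,a,a,a) ≤ 0`
for `a ≥ 1`. (Alternatively induction on the number of vectors.) -/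
def S_SGN : Prop := ∀ {n : ℕ} (W : Set (Cn n)), IsOpen W →
  ∀ H : Cn n → Matrix (Fin n) (Fin n) ℂ, (∀ x ∈ W, (H x).PosDef) → CHF H W → NHC H W →
  (∀ x ∈ W, ∀ (K : Matrix (Fin n) (Fin n) ℂ) (f : Cn n),
    (K - Matrix.vecMulVec (fun i => conj (f i)) f).PosSemidef →
    2 * (crvP H K K x).re ≤
      (∑ i, ∑ j, ∑ k, ∑ l, crv H x i j k l * f i * conj (f j) * f k * conj (f l)).re) ∧
  RBC H W

/-- An invariant Hermitian metric. -/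
structure HerT {n : ℕ} (T : Set (Cn n)) {G : Type u} (R : G → Cn n → Cn n → Prop)
    (H : Cn n → Matrix (Fin n) (Fin n) ℂ) : Prop where
  posDef : ∀ x ∈ T, (H x).PosDef
  smooth : ∀ i j, ContDiffOn ℝ ∞ (fun x => H x i j) T
  inv : InvH R H

/-- IFN. Invariant functions from invariant forms. USES: ARRB, DETI, MCAL.
PROOF. Near an arrow `(γ, x, y)` with local map `τ` (`ARRB`), `J i p := ∂_i τ_p` (invertible): `Y x = J Y(τ x) Jᴴ` for an invariant form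
(the entries of `hermi` on basis vectors), `Y(x) H(x)⁻¹ = J (Y(y) H(y)⁻¹) J⁻¹`. -/
def S_IFN : Prop := ∀ {n : ℕ} (T : Set (Cn n)) {G : Type u} [Group G]
  (R : G → Cn n → Cn n → Prop), Et T R → ∀ H Y : Cn n → Matrix (Fin n) (Fin n) ℂ,
  HerT T R H → InvH R Y →
  (∀ γ x y, R γ x y → ∃ J : Matrix (Fin n) (Fin n) ℂ, J.det ≠ 0 ∧ Y x = J * Y y * Jᴴ ∧
    H x = J * H y * Jᴴ ∧ Y x * (H x)⁻¹ = J * (Y y * (H y)⁻¹) * J⁻¹) ∧
  ∀ γ x y, R γ x y → Matrix.trace (Y x * (H x)⁻¹) = Matrix.trace (Y y * (H y)⁻¹) ∧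
    (Y x * (H x)⁻¹).det = (Y y * (H y)⁻¹).det ∧
    Matrix.trace (Y x * (H x)⁻¹ * (Y x * (H x)⁻¹)) = Matrix.trace (Y y * (H y)⁻¹ * (Y y * (H y)⁻¹))

/-- UB. The uniform bound. USES: WIRT, ARRB, LMF, CL, IFN.
PROOF. `t x := (tr (H Q⁻¹)).re` is smooth and invariant (`IFN`), so it has a maximum at some `x₀ ∈ T` (`Et.coc`). There
`LM t x₀` is negative semidefinite (`LMF`: `lev t x₀ e ≤ 0` at a local maximum) so `(trL Q t x₀).re ≤ 0`. `CL`: `0 ≥ - t + tr (η K H K) +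
0 + 0`, `tr (η K H K) ≥ c tr (H K H K) ≥ (c/n) t²` (`η - c H` semidefinite, `K H K` semidefinite; Cauchy–Schwarz for the
eigenvalues of `K^{1/2} H K^{1/2}`). So `t ≤ n/c`. -/
def S_UB : Prop := ∀ {n : ℕ} (T : Set (Cn n)) {G : Type u} [Group G]
  (R : G → Cn n → Cn n → Prop) (Q H η : Cn n → Matrix (Fin n) (Fin n) ℂ), KEt T R Q → HerT T R H →
  RBC H T → (∀ x ∈ T, rho Q x = Q x - η x) → ∀ c : ℝ, 0 < c →
  (∀ x ∈ T, (η x - (c : ℂ) • H x).PosSemidef) →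
  ∀ x ∈ T, (Matrix.trace (H x * (Q x)⁻¹)).re ≤ n / c

/-- DBB. The bound for the derivatives of `B`. USES: MCAL, CLG.
PROOF. `cdbM l B = - ε H A_lᴴ K` (`CLG`). At `x` choose `S` invertible with `H = S Sᴴ`, `S⁻¹ Q S⁻ᴴ = diag(p)`, and put `lam_i := ε/p_i ≤ n`
(`ε tr (H K) = ∑ lam_i ≤ n`), `A^_l := S⁻¹ A_l S`. Then `S⁻¹ (cdbM l B) S = - ε A^_lᴴ diag(1/p)`, the entries are `conj (A^_l)_ji lam_j`
(up to the order), so `|.|² ≤ n ∑ |(A^_l)_ij|² lam_i`. And `ε AAt = ∑_{k,l} K l k ε tr(A^_k A^_lᴴ diag(1/p)) ≥ (1/tr(Q H⁻¹)) ∑_{k,l} H⁻¹ l k ∑_ij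
lam_i (A^_k)_ij conj (A^_l)_ij ≥ (c/tr (Q H⁻¹)) ∑_k ∑_ij lam_i |(A^_k)_ij|²` since `K ≥ (tr (Q H⁻¹))⁻¹ H⁻¹` and `H⁻¹ ≥ c` on the compact set. `S` and
`S⁻¹` are bounded on the compact set (`S := sqrt of H` times a unitary matrix). -/
def S_DBB : Prop := ∀ {n : ℕ} (T : Set (Cn n)) {G : Type u} [Group G]
  (R : G → Cn n → Cn n → Prop) (H : Cn n → Matrix (Fin n) (Fin n) ℂ), HerT T R H → ∀ C ⊆ T,
  IsCompact C → ∃ K : ℝ, ∀ (ε : ℝ) (Q : Cn n → Matrix (Fin n) (Fin n) ℂ), 0 < ε → KEt T R Q →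
  (∀ x ∈ T, ε * (Matrix.trace (H x * (Q x)⁻¹)).re ≤ n) → ∀ x ∈ C,
  (∀ a c, ‖Bep ε H Q x a c‖ ≤ K) ∧
  ∑ l, ∑ a, ∑ c, ‖cdb l (fun y => Bep ε H Q y a c) x‖ ^ 2 ≤
    K * (Matrix.trace (Q x * (H x)⁻¹)).re * (ε * AAt H Q x)

/-! ## 3. Averages -/

/-- MOMG. Integrals of determinants of closed forms do not change in their cohomology class. USES: WIRT,
WCH, LMF, ARRB, DETI, DIVC, MCAL, PHDIV.
PROOF. `Z_r := Z + r LM u` is closed, Hermitian, invariant. `d/dr det Z_r = tr (adj Z_r * LM u) = ∑ k cd_k (Y^k)`, `Y^k := ∑ j (adj Z_r) j k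
cdb_j u`, because `∑ k cd_k ((adj Z_r) j k) = 0` (`PHDIV`, or directly: the cofactor is a sum over permutations; the
derivative `cd_k (Z_r a b)` is symmetric in `k, a`). `Y` satisfies the hypothesis of `DIVC` for `τ`: `adj (J Z Jᴴ) = |det J|² J⁻ᴴ adj Z J⁻¹`
and `du` is invariant. So `p(r) := ∫ κ det Z_r` (a polynomial in `r`, expand `det`) has derivative `0`. -/
def S_MOMG : Prop := ∀ {n : ℕ} (T : Set (Cn n)) {G : Type u} [Group G]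
  (R : G → Cn n → Cn n → Prop) (H : Cn n → Matrix (Fin n) (Fin n) ℂ), KEt T R H →
  ∀ κ, IsPUE T R κ → ∀ Z : Cn n → Matrix (Fin n) (Fin n) ℂ, CHF Z T → InvH R Z →
  ∀ u, InvF T R u → ∫ x in T, κ x * (Z x + LM u x).det.re = ∫ x in T, κ x * (Z x).det.re

/-- KAPI. Integrals of invariant densities do not depend on the partition function. USES: SWAP.
PROOF. `SWAP` for `f := κ`, `g := κ'`, `C`, `C'` their supports: `∫ κ AS(κ') ρ = ∫ κ' AS(κ) ρ`, and `AS(κ) = AS(κ') = 1` (complex valued versions) by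
`IsPUE.sum`. -/
def S_KAPI : Prop := ∀ {n : ℕ} (T : Set (Cn n)) {G : Type u} [Group G]
  (R : G → Cn n → Cn n → Prop), Et T R → ∀ κ κ', IsPUE T R κ → IsPUE T R κ' → ∀ ρ : Cn n → ℝ,
  ContinuousOn ρ T → (∀ U τ, Arr R U τ → ∀ x ∈ U, ρ x = ρ (τ x) * ‖(fderiv ℂ τ x).det‖ ^ 2) →
  ∫ x in T, κ x * ρ x = ∫ x in T, κ' x * ρ x

/-- RHOI. The form `rho` and the potential. USES: WIRT, WCH, LMF, ARRB, DETI, MCAL.
PROOF. `ld H` is smooth, `LM` of a smooth function is Hermitian and closed (`LMF`); for an arrow `ld H x = ld H (τ x) +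
log |det Dτ|²` (`DETI`), so `rho H` is invariant (`WCH`: chain rule, `log |det Dτ|²` is pluriharmonic); the difference of
the potentials is invariant. -/
def S_RHOI : Prop := ∀ {n : ℕ} (T : Set (Cn n)) {G : Type u} [Group G]
  (R : G → Cn n → Cn n → Prop) (H : Cn n → Matrix (Fin n) (Fin n) ℂ), Et T R → HerT T R H →
  CHF (rho H) T ∧ InvH R (rho H) ∧ ContDiffOn ℝ ∞ (ld H) T ∧
  (∀ u, InvF T R u → CHF (LM u) T ∧ InvH R (LM u)) ∧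
  ∀ Q, HerT T R Q → InvF T R (fun x => ld Q x - ld H x) ∧
    ∀ x ∈ T, rho Q x = rho H x + LM (fun y => ld Q y - ld H y) x

/-- VOLP. The volume polynomial. USES: MOMG, RHOI, PUE.
PROOF. (1) `Q = ε H + rho Q = (ε H + rho H) + LM u`, `u := ld Q - ld H` (`RHOI`): `MOMG` for `Z := rho H + (ε + t) H`. (2) `V` is a
polynomial in `s` of degree `≤ n` with coefficient `∫ κ det H > 0` of `s^n` (`κ ≥ 0` is not identically `0`), and `V(s) =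
∫ κ det Q_s > 0` for `s > 0`. So `V(s) = s^k p(s)`, `p(0) ≠ 0`, `k ≤ n`, `p(0) = lim V(s)/s^k ≥ 0`. -/
def S_VOLP : Prop := ∀ {n : ℕ} (T : Set (Cn n)) {G : Type u} [Group G]
  (R : G → Cn n → Cn n → Prop) (H : Cn n → Matrix (Fin n) (Fin n) ℂ), KEt T R H →
  ∀ κ, IsPUE T R κ → (∀ ε : ℝ, 0 < ε → ∃ Q, TKE T R H ε Q) →
  (∀ (ε : ℝ) (Q : Cn n → Matrix (Fin n) (Fin n) ℂ), 0 < ε → TKE T R H ε Q → ∀ t : ℝ, 0 ≤ t →
    ∫ x in T, κ x * (Q x + (t : ℂ) • H x).det.re = VolP T κ H (ε + t)) ∧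
  ∃ (k : ℕ) (p : Polynomial ℝ), k ≤ n ∧ 0 < p.eval 0 ∧ ∀ s : ℝ, VolP T κ H s = s ^ k * p.eval s

/-- LAC. Concentration of the eigenvalues, pointwise.
PROOF. The eigenvalues `lam_1 ≥ … ≥ lam_n` of `B` are those of `Q^{-1/2} H Q^{-1/2}`: real, `≥ 0`, sum `≤ n`. `t1 = ∑ lam`, `t2 = ∑ lam²`,
`d = ∏ (1 + τ lam_i)`. `E := t2 - 2 t1 + k + 4 n (δ + d/(δ^k τ^(k+1)))`. For `j > k`: `(τ lam_j)^(k+1) ≤ (1 + τ lam_(k+1))^(k+1) ≤ d` and `lam ≤ δ +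
lam^(k+1)/δ^k`, so `ell := ∑_{j > k} lam_j ≤ n (δ + d/(δ^k τ^(k+1)))`. `t2 - 2 t1 + k ≥ ∑_{i ≤ k} (lam_i - 1)² - 2 ell`. So
`∑_{i ≤ k} (lam_i - 1)² + 2 ell ≤ E`. (1) `tr ((B² - B)²) = ∑ lam² (lam - 1)² ≤ n² ∑_{i ≤ k} (lam_i - 1)² + n (n+1)² ell`. (2) `(t1 - k)² ≤
2 k ∑_{i ≤ k} (lam_i - 1)² + 2 n ell`. (3) `1 + τ t1 ≤ ∏ (1 + τ lam_i) ≤ 1 + τ t1 + C0 τ²` for `0 ≤ τ ≤ 1`. -/
def S_LAC : Prop := ∀ n : ℕ, ∃ C0 : ℝ, 0 < C0 ∧ ∀ H Q B : Matrix (Fin n) (Fin n) ℂ, H.PosDef →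
  Q.PosDef → B = H * Q⁻¹ → (Matrix.trace B).re ≤ n →
  0 ≤ (Matrix.trace B).re ∧ (Matrix.trace (B * B)).re ≤ C0 ∧
  0 ≤ (Matrix.trace ((B * B - B) * (B * B - B))).re ∧
  (∀ τ : ℝ, 0 ≤ τ → 0 ≤ (1 + (τ : ℂ) • B).det.re ∧ (τ ≤ 1 →
    1 + τ * (Matrix.trace B).re ≤ (1 + (τ : ℂ) • B).det.re ∧
    (1 + (τ : ℂ) • B).det.re ≤ 1 + τ * (Matrix.trace B).re + C0 * τ ^ 2)) ∧
  ∀ k : ℕ, k ≤ n → ∀ δ τ : ℝ, 0 < δ → δ ≤ 1 → 0 < τ →
    (Matrix.trace ((B * B - B) * (B * B - B))).re ≤ C0 * ((Matrix.trace (B * B)).re -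
      2 * (Matrix.trace B).re + k +
      4 * n * (δ + (1 + (τ : ℂ) • B).det.re / (δ ^ k * τ ^ (k + 1)))) ∧
    ((Matrix.trace B).re - k) ^ 2 ≤ C0 * ((Matrix.trace (B * B)).re -
      2 * (Matrix.trace B).re + k +
      4 * n * (δ + (1 + (τ : ℂ) • B).det.re / (δ ^ k * τ ^ (k + 1))))

/-- CONC. Concentration of the eigenvalues. USES: WIRT, ARRB, DETI, LMID, CL, UB, IFN, RHOI, VOLP, LAC.
PROOF. `E_j := avE T κ (Q j)`, `B_j = ε_j H Q_j⁻¹`; `ε_j tr (H Q_j⁻¹) ≤ n` (`UB` with `η = ε_j H`, `c = ε_j`). All functions below are continuous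
and bounded, so integrable against `κ det Q_j`. (1) `E_j[det (1 + τ B_j)] = V(ε_j (1+τ))/V(ε_j) → (1+τ)^k` (`VOLP`; `det Q det (1 + τ B)
= det (Q + τ ε H)`). (2) `CL` times `ε_j` with `η = ε_j H`, and `∫ κ det Q trL Q t = 0` for invariant smooth `t` (`LMID` for the Kähler
metric `Q_j`): `E_j[tr B] - E_j[tr B²] = E_j[ε_j (-KK)] + E_j[ε_j AA]`, both terms `≥ 0` (`RBC`, `CL`). (3) `LAC` (3) and (1): `E_j[tr B_j] → k`. (4)
`LAC`: with `E_j[tr B²] ≤ E_j[tr B]`: `limsup E_j[tr ((B²-B)²)] ≤ C0 (k - 2k + k + 4n (δ + (1+τ)^k/(δ^k τ^(k+1))))`; let `τ → ∞`, then `δ → 0`. Same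
for `(tr B - k)²`. (5) `0 ≤ E_j[tr B²] - 2 E_j[tr B] + k + …` also gives `liminf E_j[tr B²] ≥ k`, so `E_j[tr B] - E_j[tr B²] → 0`. -/
def S_CONC : Prop := ∀ {n : ℕ} (T : Set (Cn n)) {G : Type u} [Group G]
  (R : G → Cn n → Cn n → Prop) (H : Cn n → Matrix (Fin n) (Fin n) ℂ), KEt T R H → RBC H T →
  ∀ κ, IsPUE T R κ → ∀ (k : ℕ) (p : Polynomial ℝ), k ≤ n → 0 < p.eval 0 →
  (∀ s : ℝ, VolP T κ H s = s ^ k * p.eval s) →
  ∀ (ε : ℕ → ℝ) (Q : ℕ → Cn n → Matrix (Fin n) (Fin n) ℂ), (∀ j, 0 < ε j) →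
  Tendsto ε atTop (𝓝 0) → (∀ j, TKE T R H (ε j) (Q j)) →
  Tendsto (fun j => avE T κ (Q j) fun x => (Matrix.trace (
    (Bep (ε j) H (Q j) x * Bep (ε j) H (Q j) x - Bep (ε j) H (Q j) x) *
    (Bep (ε j) H (Q j) x * Bep (ε j) H (Q j) x - Bep (ε j) H (Q j) x))).re) atTop (𝓝 0) ∧
  Tendsto (fun j => avE T κ (Q j) fun x => ((Matrix.trace (Bep (ε j) H (Q j) x)).re - k) ^ 2)
    atTop (𝓝 0) ∧
  Tendsto (fun j => avE T κ (Q j) fun x => ε j * (- KKt H (Q j) x)) atTop (𝓝 0) ∧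
  Tendsto (fun j => avE T κ (Q j) fun x => ε j * AAt H (Q j) x) atTop (𝓝 0)

/-- LOCB. Compact sets are controlled by the partition function. USES: ARRB, LFIN, DETI.
PROOF. As `L2C` (Helper10/SP, proved; see the file of that packet). `κ > 0` somewhere on every orbit (`IsPUE.sum`): for
`x₀ ∈ C` there is an arrow `(γ, x₀, y₀)` with `κ y₀ > 0` and a local map `τ` on a closed ball `B ∋ x₀`, injective, `κ ≥ a > 0` on `τ B`.
`∫_B f ≤ (sup_B 1/|det Dτ|²) ∫_{τ B} f ≤ const ∫ κ det H f`. Finitely many balls cover `C`. -/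
def S_LOCB : Prop := ∀ {n : ℕ} (T : Set (Cn n)) {G : Type u} [Group G]
  (R : G → Cn n → Cn n → Prop) (H : Cn n → Matrix (Fin n) (Fin n) ℂ), KEt T R H →
  ∀ κ, IsPUE T R κ → ∀ C ⊆ T, IsCompact C → ∃ B : ℝ, 0 < B ∧ ∀ f : Cn n → ℝ, ContinuousOn f T →
  (∀ x ∈ T, 0 ≤ f x) → (∀ γ x y, R γ x y → f y = f x) →
  ∫ x in C, f x ≤ B * ∫ x in T, κ x * (H x).det.re * f x

/-! ## 4. Quasi-plurisubharmonic potentials -/

/-- Invariant smooth functions `u` with `LM u ≥ - K H`, bounded above by `K` and `≥ - K` at some point. -/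
structure QPF {n : ℕ} (T : Set (Cn n)) {G : Type u} (R : G → Cn n → Cn n → Prop)
    (H : Cn n → Matrix (Fin n) (Fin n) ℂ) (K : ℝ) (u : Cn n → ℝ) : Prop where
  inv : InvF T R u
  qp : ∀ x ∈ T, (LM u x + (K : ℂ) • H x).PosSemidef
  le : ∀ x ∈ T, u x ≤ K
  ge : ∃ x ∈ T, - K ≤ u x

/-- RHB. Cocompact bounds. USES: ARRB.
PROOF. For `x` in the compact set of `Et.coc`: `|v* Y v| ≤ K v* H v` with one `K` (continuity, compactness of the unit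
sphere); both sides are invariant under arrows (`Y x = J Y(y) Jᴴ`). -/
def S_RHB : Prop := ∀ {n : ℕ} (T : Set (Cn n)) {G : Type u} [Group G]
  (R : G → Cn n → Cn n → Prop) (H : Cn n → Matrix (Fin n) (Fin n) ℂ), Et T R → HerT T R H →
  ∀ Y : Cn n → Matrix (Fin n) (Fin n) ℂ, (∀ x ∈ T, (Y x).IsHermitian) →
  (∀ i j, ContinuousOn (fun x => Y x i j) T) → InvH R Y → ∃ K : ℝ, 0 < K ∧ ∀ x ∈ T,
  ((K : ℂ) • H x + Y x).PosSemidef ∧ ((K : ℂ) • H x - Y x).PosSemidef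

/-- SUBM. The submean value inequality for exponentials.
PROOF. `φ y := u y + K ∑ ‖y j - x j‖²` has `lev φ y e ≥ 0` (`lev (∑ ‖y j‖²) = 4 ∑ ‖e j‖² ≥ 4 ‖e‖²`), so `exp φ` also has nonnegative Levi form.
A smooth function `ψ` with `lev ψ ≥ 0` near the closed polydisc `closedBall x r` satisfies `ψ x ≤ (π r²)^(-n) ∫_{closedBall x r} ψ`: in one
variable the circular means of a smooth function with nonnegative Laplacian are nondecreasing in the radius; then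
Fubini. (`ball` is the polydisc since `Cn n` has the sup norm.) `exp φ ≤ exp (K n r²) exp u` on the polydisc. -/
def S_SUBM : Prop := ∀ (n : ℕ) (r K : ℝ), 0 < r → 0 ≤ K → ∃ B : ℝ, 0 < B ∧
  ∀ (x : Cn n) (u : Cn n → ℝ), ContDiffOn ℝ ∞ u (ball x (2 * r)) →
  (∀ y ∈ ball x (2 * r), ∀ e, - K * ‖e‖ ^ 2 ≤ lev u y e) →
  Real.exp (u x) ≤ B * ∫ y in closedBall x r, Real.exp (u y)

/-- QPD. The logarithms of the densities are uniformly quasi-plurisubharmonic. USES: LMF, MCAL, RHOI, VOLP,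
RHB, SUBM, LOCB, DETI, LMID, IFN.
PROOF. `u := log (dens k ε H Q) = ld Q - ld H - k log ε`, `LM u = rho Q - rho H = Q - ε H - rho H ≥ - (1 + K1) H` (`RHB`). For `x` in the compact set of
`Et.coc`: `SUBM` and `LOCB` (for the union of small closed polydiscs about the points of the compact set):
`exp (u x) ≤ B ∫_{closedBall x r} exp u ≤ B' ∫ κ det H exp u = B' V(ε)/ε^k = B' p(ε) ≤ B''`. And `∫ κ det H exp u = p(ε) ≥ c > 0` for `0 < ε ≤ 1` (`p > 0` on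
`[0, 1]`: `p(ε) = V(ε)/ε^k > 0`, continuity) so `exp u ≥ c/∫ κ det H` somewhere. Last item: `∫ κ det H tr (Q H⁻¹) = ∫ κ det H tr ((rho H + ε H) H⁻¹)`
(`RHOI`, `LMID` for `LM u`), bounded for `ε ≤ 1`, and `LOCB` for the invariant function `(tr (Q H⁻¹)).re ≥ 0`. -/
def S_QPD : Prop := ∀ {n : ℕ} (T : Set (Cn n)) {G : Type u} [Group G]
  (R : G → Cn n → Cn n → Prop) (H : Cn n → Matrix (Fin n) (Fin n) ℂ), KEt T R H →
  ∀ κ, IsPUE T R κ → (∀ ε : ℝ, 0 < ε → ∃ Q, TKE T R H ε Q) → ∀ (k : ℕ) (p : Polynomial ℝ),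
  0 < p.eval 0 → (∀ s : ℝ, VolP T κ H s = s ^ k * p.eval s) → ∃ K : ℝ, 0 < K ∧
  (∀ (ε : ℝ) (Q : Cn n → Matrix (Fin n) (Fin n) ℂ), 0 < ε → ε ≤ 1 → TKE T R H ε Q →
    QPF T R H K (fun x => Real.log (dens k ε H Q x)) ∧ ∀ x ∈ T, 0 < dens k ε H Q x) ∧
  ∀ C ⊆ T, IsCompact C → ∃ B : ℝ, ∀ (ε : ℝ) (Q : Cn n → Matrix (Fin n) (Fin n) ℂ), 0 < ε → ε ≤ 1 →
    TKE T R H ε Q → ∫ x in C, (Matrix.trace (Q x * (H x)⁻¹)).re ≤ B

/-- L1Q. Integral bound for quasi-plurisubharmonic functions. USES: PUE, DETI, LOCB and `S_ALPHA` of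
`Helper57/HS/DefsB.lean` (which may be assumed).
PROOF. `K ≥ 0` (otherwise nothing to prove). `u` is invariant and continuous, so it attains its maximum `m ∈ [-K, K]` (`Et.coc`). `w := u - m`, `q := K + 1`:
`S_ALPHA` gives `α > 0` and `K'` independent of `u` with `∫ κ det H exp (- α w) ≤ K'`, and `α |w| ≤ exp (- α w)`. `|u| ≤ |w| + K`; `LOCB` for the invariant
continuous function `|u|`. -/
def S_L1Q : Prop := ∀ {n : ℕ} (T : Set (Cn n)) {G : Type u} [Group G]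
  (R : G → Cn n → Cn n → Prop) (H : Cn n → Matrix (Fin n) (Fin n) ℂ), KEt T R H → ∀ K : ℝ,
  ∀ C ⊆ T, IsCompact C → ∃ B : ℝ, ∀ u, QPF T R H K u → ∫ x in C, |u x| ≤ B

/-- LOWQ. Lower bound of the masses. USES: L1Q.
PROOF. `∫_C |u| ≤ B`: the set `{x ∈ C | u x < - M}` has measure `≤ B/M ≤ |C|/2` for `M := 2 B/|C| + 1`; so `∫_C exp u ≥ exp (-M) |C|/2`. -/
def S_LOWQ : Prop := ∀ {n : ℕ} (T : Set (Cn n)) {G : Type u} [Group G]
  (R : G → Cn n → Cn n → Prop) (H : Cn n → Matrix (Fin n) (Fin n) ℂ), KEt T R H → ∀ K : ℝ,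
  ∀ C ⊆ T, IsCompact C → 0 < volume C → ∃ c > 0, ∀ u, QPF T R H K u →
  c ≤ ∫ x in C, Real.exp (u x)

/-- The cut-off: `1` for `t ≥ - M`, `0` for `t ≤ - 2 M`. -/
noncomputable def thM (M t : ℝ) : ℝ := Real.smoothTransition (t / M + 2)

/-- ENER. Energy of the cut-offs. USES: WIRT, LMF, DETI, LMID, L2C.
PROOF. `|θ_M'| ≤ C/M`, supported in `[-2M, -M]`. Let `h'(t) := ∫_{-∞}^t (θ_M')² ≤ C²/M`, `h'' = (θ_M')²`. `h ∘ u` is invariant and smooth, so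
`0 = ∫ κ det H (trL H (h ∘ u)).re = ∫ κ det H (h''(u) |du|² + h'(u) (trL H u).re)` (`LMID`), `|du|² := ∑ (H⁻¹) j k cdb_j u conj(cdb_k u) =
dbp H u u`; `(trL H u).re ≥ - K n`. So `dipE (θ_M ∘ u) (θ_M ∘ u) = ∫ κ det H θ_M'(u)² |du|² ≤ K n (C²/M) ∫ κ det H`. `L2C` (`m = 0`, `W = det H`). -/
def S_ENER : Prop := ∀ {n : ℕ} (T : Set (Cn n)) {G : Type u} [Group G]
  (R : G → Cn n → Cn n → Prop) (H : Cn n → Matrix (Fin n) (Fin n) ℂ), KEt T R H → ∀ K : ℝ,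
  ∀ C ⊆ T, IsCompact C → ∃ B : ℝ, ∀ u, QPF T R H K u → ∀ M : ℝ, 1 ≤ M →
  ∫ x in C, ∑ l, ‖cdb l (fun y => ((thM M (u y) : ℝ) : ℂ)) x‖ ^ 2 ≤ B / M

/-! ## 5. The limit -/

/-- The mollification of a complex function. -/
noncomputable def mollc {n : ℕ} (f : Cn n → ℂ) (ε : ℝ) (x : Cn n) : ℂ :=
  ∫ y, f (x - y) * (mol n ε y : ℂ)

/-- PMP. Mollification and `∂̄` in `L¹`.
PROOF. `mol n ε` is invariant under `y ↦ e^{iθ} y`, has integral `1` and support in the closed ball of radius `ε`. For fixed `y`: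
`g(ρ) := (2π)⁻¹ ∫_0^{2π} f (x - ρ e^{iθ} y) dθ`, `g(0) = f x`. With `∂_ρ (f (x - ρ e^{iθ} y)) = - Re-type sum: fderiv f (e^{iθ} y) = (1/2) ∑ l (e^{iθ} y_l cd_l f +
conj(e^{iθ} y_l) cdb_l f)` and `∂_θ = - ρ fderiv f (i e^{iθ} y)`, whose mean is `0`, one gets `g'(ρ) = - (2π)⁻¹ ∫ ∑ l conj(e^{iθ} y_l) cdb_l f dθ`. So
`|f x - g(1)| ≤ ε ∑ l ∫_0^1 (2π)⁻¹ ∫ |cdb_l f (x - ρ e^{iθ} y)| dθ dρ` for `‖y‖ ≤ ε`. `mollc f ε x = ∫ mol(y) g_y(1) dy` (invariance of `mol`). Integrate over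
`x ∈ closedBall a r` (Fubini; the translates stay in `closedBall a (r + ε)`). -/
def S_PMP : Prop := ∀ {n : ℕ} (a : Cn n) (r ε : ℝ), 0 < r → 0 < ε → ∀ f : Cn n → ℂ,
  ContDiffOn ℝ ∞ f (ball a (2 * (r + ε))) →
  ∫ x in closedBall a r, ‖f x - mollc f ε x‖ ≤
    ε * ∫ x in closedBall a (r + ε), ∑ l, ‖cdb l f x‖

/-- MLB. Bounds for mollifications.
PROOF. `mollc f ε x = ∫ f(z) mol(x - z) dz` over `closedBall a (r + ε)`; `mol n ε` is smooth with compact support, so bounded and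
Lipschitz. `cdb l (mollc f ε) x = ∫ f(x - y)`-derivative `= mollc (cdb l f) ε x`, bounded by `sup mol * ∫ ‖cdb l f‖`. -/
def S_MLB : Prop := ∀ (n : ℕ) (r ε : ℝ), 0 < r → 0 < ε → ∃ B : ℝ, ∀ (a : Cn n) (f : Cn n → ℂ)
  (s : ℝ), ContDiffOn ℝ ∞ f (ball a (2 * (r + ε))) → (∀ x ∈ closedBall a (r + ε), ‖f x‖ ≤ s) →
  (∀ x ∈ closedBall a r, ‖mollc f ε x‖ ≤ s) ∧
  (∀ x ∈ closedBall a r, ∀ y ∈ closedBall a r, ‖mollc f ε x - mollc f ε y‖ ≤ B * s * ‖x - y‖) ∧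
  ContDiffOn ℝ ∞ (mollc f ε) (ball a r) ∧
  ∀ x ∈ ball a r, ∀ l, ‖cdb l (mollc f ε) x‖ ≤
    B * ∫ y in closedBall a (r + ε), ‖cdb l f y‖

/-- DIAG. Common subsequences.
PROOF. The sequence `j ↦ (i ↦ F i j)` lies in the compact set `Set.pi univ K` of the countable product of metric spaces,
which is first countable: `IsCompact.tendsto_subseq` (`isCompact_univ_pi`). -/
def S_DIAG : Prop := ∀ (E : ℕ → Type) [∀ i, MetricSpace (E i)] (K : ∀ i, Set (E i))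
  (F : ∀ i, ℕ → E i), (∀ i, IsCompact (K i)) → (∀ i j, F i j ∈ K i) →
  ∃ φ : ℕ → ℕ, StrictMono φ ∧ ∀ i, ∃ f ∈ K i, Tendsto (fun j => F i (φ j)) atTop (𝓝 f)

/-- ARZ. Arzelà–Ascoli on countably many balls. USES: DIAG.
PROOF. `E i := BoundedContinuousFunction (closedBall (a i) (r i)) ℂ` (or `C(closedBall, ℂ)`); the functions bounded by `s i` with Lipschitz
constant `L i` form a compact set (Arzelà–Ascoli: `BoundedContinuousFunction.arzela_ascoli`); the pairs `(i, index)` are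
countable. -/
def S_ARZ : Prop := ∀ {n : ℕ} {ι : Type} [Fintype ι] (a : ℕ → Cn n) (r s L : ℕ → ℝ)
  (F : ℕ → ℕ → Cn n → ι → ℂ), (∀ i, 0 < r i) →
  (∀ i j, ∀ x ∈ closedBall (a i) (r i), ∀ c, ‖F i j x c‖ ≤ s i) →
  (∀ i j, ∀ x ∈ closedBall (a i) (r i), ∀ y ∈ closedBall (a i) (r i), ∀ c,
    ‖F i j x c - F i j y c‖ ≤ L i * ‖x - y‖) →
  ∃ φ : ℕ → ℕ, StrictMono φ ∧ ∀ i, ∃ f : Cn n → ι → ℂ,
    ∀ δ > 0, ∀ᶠ j in atTop, ∀ x ∈ closedBall (a i) (r i), ∀ c, ‖F i (φ j) x c - f x c‖ ≤ δ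

/-- DBC. Bounded sequences with `∂̄ → 0` in `L¹` have subsequences converging in `L¹` to holomorphic functions. USES: WIRT,
PMP, MLB, ARZ.
PROOF. Choose countably many closed balls `closedBall (a i) (2 r_i)` whose interiors `ball (a i) r_i` cover `T` and with
`closedBall (a i) (8 r_i) ⊆ T` (Lindelöf). `F i j := mollc (f j) r_i` on `closedBall (a i) (2 r_i)` (components): bounded, Lipschitz (`MLB`), so `ARZ`
gives `φ` and uniform limits `P_i`. `PMP`: `∫_{closedBall (a i) (2 r_i)} ‖f_j - F i j‖ → 0`. So `f_{φ j} → P_i` in `L¹(closedBall (a i) (2 r_i))`; hence `P_i = P_l` a.e.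
on intersections, and everywhere on intersections of the open balls by continuity; `P := P_i` on `ball (a i) r_i`. `P` is holomorphic: for a
smaller `ε`: by `MLB` the functions `F i j` have `cdb_l → 0` uniformly, so their limit `P_i` is weakly holomorphic and continuous. Concretely:
`mollc (P_i) ε` is smooth with `cdb_l (mollc P_i ε) = lim_j cdb_l (mollc (F i (φ j)) ε) = 0`, so it is holomorphic, and `mollc P_i ε → P_i` locally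
uniformly as `ε → 0`. Compact sets are covered by finitely many balls. -/
def S_DBC : Prop := ∀ {n : ℕ} {ι : Type} [Fintype ι] (T : Set (Cn n)), IsOpen T →
  ∀ f : ℕ → Cn n → ι → ℂ, (∀ j c, ContDiffOn ℝ ∞ (fun x => f j x c) T) →
  (∀ C ⊆ T, IsCompact C → ∃ B : ℝ, ∀ j, ∀ x ∈ C, ∀ c, ‖f j x c‖ ≤ B) →
  (∀ C ⊆ T, IsCompact C → ∀ l c, Tendsto (fun j => ∫ x in C, ‖cdb l (fun y => f j y c) x‖)
    atTop (𝓝 0)) →
  ∃ φ : ℕ → ℕ, StrictMono φ ∧ ∃ P : Cn n → ι → ℂ, (∀ c, DifferentiableOn ℂ (fun x => P x c) T) ∧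
    ∀ C ⊆ T, IsCompact C → ∀ c,
      Tendsto (fun j => ∫ x in C, ‖f (φ j) x c - P x c‖) atTop (𝓝 0)

/-- LIMG. The limit theorem with weights. USES: WIRT, ENER, DBC.
PROOF. Exhaust `T` by compact sets `C_m` (every compact subset of `T` is in some `C_m`). For `M ≥ 1`: `f_{j,M} := θ_M(u_j) Z_j`;
`∫_C ‖cdb_l f_{j,M}‖ ≤ e^{2M} ∫_C e^{u_j} ‖cdb_l Z_j‖ + B_C ∫_C |cdb_l θ_M(u_j)|` (`θ_M(u) ≠ 0` implies `u ≥ - 2M`) and the last integral is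
`≤ (|C| B/M)^{1/2}` (`ENER`, Cauchy–Schwarz). For each integer `M ≥ 1` there is `J_M` with `e^{2M} ∫_{C_m} e^{u_j} ‖cdb_l Z_j‖ ≤ 1/M` for all `m ≤ M`, `l`,
entries, `j ≥ J_M`; choose `M_j → ∞` with `j ≥ J_{M_j}` for large `j`. `f_j := f_{j,M_j}` satisfies the hypotheses of `DBC`. Finally
`∫_C e^{u_j} ‖Z_j - P‖ ≤ ∫_C e^{u_j} (1 - θ_{M_j}(u_j)) ‖Z_j‖ + e^K ∫_C ‖f_j - P‖`, and `1 - θ_M(u) ≠ 0` implies `u ≤ - M`: the first term is `≤ B_C |C| e^{-M_j}`. -/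
def S_LIMG : Prop := ∀ {n : ℕ} {ι : Type} [Fintype ι] (T : Set (Cn n)) {G : Type u} [Group G]
  (R : G → Cn n → Cn n → Prop) (H : Cn n → Matrix (Fin n) (Fin n) ℂ), KEt T R H → ∀ K : ℝ,
  ∀ (u : ℕ → Cn n → ℝ) (Z : ℕ → Cn n → ι → ℂ), (∀ j, QPF T R H K (u j)) →
  (∀ j c, ContDiffOn ℝ ∞ (fun x => Z j x c) T) →
  (∀ C ⊆ T, IsCompact C → ∃ B : ℝ, ∀ j, ∀ x ∈ C, ∀ c, ‖Z j x c‖ ≤ B) →
  (∀ C ⊆ T, IsCompact C → ∀ l c, Tendsto (fun j => ∫ x in C, Real.exp (u j x) *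
    ‖cdb l (fun y => Z j y c) x‖) atTop (𝓝 0)) →
  ∃ φ : ℕ → ℕ, StrictMono φ ∧ ∃ P : Cn n → ι → ℂ, (∀ c, DifferentiableOn ℂ (fun x => P x c) T) ∧
    ∀ C ⊆ T, IsCompact C → ∀ c,
      Tendsto (fun j => ∫ x in C, Real.exp (u (φ j) x) * ‖Z (φ j) x c - P x c‖) atTop (𝓝 0)

/-- AVC. From averages to compact sets. USES: DETI, VOLP, LOCB.
PROOF. `det Q = ε^k dens det H`: `∫ κ det H (dens f) = ε^{-k} ∫ κ det Q f = ε^{-k} V(ε) avE f = p(ε) avE f → 0` (`p` is bounded near `0`; `itg 1 = V(ε)` by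
`VOLP` (1), `t = 0`); `LOCB` for the invariant continuous function `dens f ≥ 0`. -/
def S_AVC : Prop := ∀ {n : ℕ} (T : Set (Cn n)) {G : Type u} [Group G]
  (R : G → Cn n → Cn n → Prop) (H : Cn n → Matrix (Fin n) (Fin n) ℂ), KEt T R H →
  ∀ κ, IsPUE T R κ → (∀ ε : ℝ, 0 < ε → ∃ Q, TKE T R H ε Q) → ∀ (k : ℕ) (p : Polynomial ℝ),
  0 < p.eval 0 → (∀ s : ℝ, VolP T κ H s = s ^ k * p.eval s) →
  ∀ (ε : ℕ → ℝ) (Q : ℕ → Cn n → Matrix (Fin n) (Fin n) ℂ), (∀ j, 0 < ε j) →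
  Tendsto ε atTop (𝓝 0) → (∀ j, TKE T R H (ε j) (Q j)) → ∀ f : ℕ → Cn n → ℝ,
  (∀ j, ContinuousOn (f j) T) → (∀ j, ∀ x ∈ T, 0 ≤ f j x) →
  (∀ j γ x y, R γ x y → f j y = f j x) → Tendsto (fun j => avE T κ (Q j) (f j)) atTop (𝓝 0) →
  ∀ C ⊆ T, IsCompact C →
    Tendsto (fun j => ∫ x in C, dens k (ε j) H (Q j) x * f j x) atTop (𝓝 0)

/-- INVK. The error terms are invariant and continuous. USES: WIRT, WCH, ARRB, DETI, MCAL, CSY.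
PROOF. Smoothness from `MCAL`. For an arrow with `J` (`J i p = ∂_i τ_p`, holomorphic): `H x = J H(y) Jᴴ` with `y = τ x`, so `Gam H k x = (cdM k J) J⁻¹ +
∑ p J k p • J Gam H p (y) J⁻¹`; the difference `A_k` transforms as `A_k = ∑ p J k p • J A_p(y) J⁻¹` and `Q⁻¹ x = J⁻ᴴ Q⁻¹(y) J⁻¹`: `AAt` is invariant. The
curvature: `crv H x i j k l = ∑ J i a conj(J j b) J k c conj (J l d) crv H y a b c d` (apply `cdb l`, `J` holomorphic). -/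
def S_INVK : Prop := ∀ {n : ℕ} (T : Set (Cn n)) {G : Type u} [Group G]
  (R : G → Cn n → Cn n → Prop), Et T R → ∀ H Q : Cn n → Matrix (Fin n) (Fin n) ℂ, HerT T R H →
  HerT T R Q → ContinuousOn (KKt H Q) T ∧ ContinuousOn (AAt H Q) T ∧
  (∀ γ x y, R γ x y → KKt H Q y = KKt H Q x ∧ AAt H Q y = AAt H Q x) ∧
  ∀ i j k l, ContinuousOn (fun x => crv H x i j k l) T

/-- DBZ. The weighted `L¹` norm of `∂̄B` tends to zero. USES: DETI, UB, DBB, QPD, CONC, AVC, INVK.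
PROOF. `S := dens ≤ e^K` (`QPD`). By `DBB` and Cauchy–Schwarz `(∫_C S ‖cdb_l B_ac‖)² ≤ (∫_C K' S tr(Q H⁻¹)) (∫_C S ε AAt) ≤ K' e^K B (∫_C S ε AAt) → 0` (`CONC` (4),
`AVC`; for large `j` `ε_j ≤ 1`). -/
def S_DBZ : Prop := ∀ {n : ℕ} (T : Set (Cn n)) {G : Type u} [Group G]
  (R : G → Cn n → Cn n → Prop) (H : Cn n → Matrix (Fin n) (Fin n) ℂ), KEt T R H → RBC H T →
  ∀ κ, IsPUE T R κ → (∀ ε : ℝ, 0 < ε → ∃ Q, TKE T R H ε Q) → ∀ (k : ℕ) (p : Polynomial ℝ),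
  k ≤ n → 0 < p.eval 0 → (∀ s : ℝ, VolP T κ H s = s ^ k * p.eval s) →
  ∀ (ε : ℕ → ℝ) (Q : ℕ → Cn n → Matrix (Fin n) (Fin n) ℂ), (∀ j, 0 < ε j) → (∀ j, ε j ≤ 1) →
  Tendsto ε atTop (𝓝 0) → (∀ j, TKE T R H (ε j) (Q j)) → ∀ C ⊆ T, IsCompact C → ∀ l a c,
    Tendsto (fun j => ∫ x in C, dens k (ε j) H (Q j) x *
      ‖cdb l (fun y => Bep (ε j) H (Q j) y a c) x‖) atTop (𝓝 0)

/-- LPR. Algebraic properties of the limit. USES: ARRB, IFN, UB, DBB.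
PROOF. If a continuous function `F ≥ 0` on `T` satisfies `∫_C dens_j F → 0` for all compact `C` then `F = 0` (otherwise `F ≥ c > 0` on a closed ball,
contradiction to the lower bound `low`). The `B_j` are bounded on `C` (`DBB`, first item, with `UB`) and so is `P`. (1) `‖P² - P‖ ≤ ‖B_j² - B_j‖ + const ‖B_j - P‖`
(entries), and `∑ ‖(B² - B) a c‖² ≤ const tr((B² - B)²)` on `C`: `S⁻¹ (B² - B) S` is Hermitian for `H = S Sᴴ`, its trace of the square is the sum of the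
squares of the absolute values of its entries; Cauchy–Schwarz, `dens_j` bounded. (2) The trace: the same with `(tr B_j - k)²`. (3) `B_j H` is Hermitian:
`ε H Q⁻¹ H`. (4) `B_j H` is an invariant form (`IFN`): for a local arrow `τ` on `U` both sides of the identity for `P H` are limits; use
`∫_C dens_j ‖..‖ → 0` with `C ⊆ U` a closed ball and `dens_j (τ x) = dens_j x` (change of variables on `τ C`). -/
def S_LPR : Prop := ∀ {n : ℕ} (T : Set (Cn n)) {G : Type u} [Group G]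
  (R : G → Cn n → Cn n → Prop) (H : Cn n → Matrix (Fin n) (Fin n) ℂ), KEt T R H → RBC H T →
  ∀ (k : ℕ) (ε : ℕ → ℝ) (Q : ℕ → Cn n → Matrix (Fin n) (Fin n) ℂ)
  (P : Cn n → Matrix (Fin n) (Fin n) ℂ), (∀ j, 0 < ε j) → (∀ j, TKE T R H (ε j) (Q j)) →
  (∀ i j, DifferentiableOn ℂ (fun x => P x i j) T) →
  (∃ C : ℝ, ∀ j, ∀ x ∈ T, dens k (ε j) H (Q j) x ≤ C) →
  (∀ C ⊆ T, IsCompact C → ∀ a c, Tendsto (fun j => ∫ x in C, dens k (ε j) H (Q j) x *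
    ‖Bep (ε j) H (Q j) x a c - P x a c‖) atTop (𝓝 0)) →
  (∀ C ⊆ T, IsCompact C → 0 < volume C → ∃ c > 0, ∀ j, c ≤ ∫ x in C, dens k (ε j) H (Q j) x) →
  (∀ C ⊆ T, IsCompact C → Tendsto (fun j => ∫ x in C, dens k (ε j) H (Q j) x * (Matrix.trace (
    (Bep (ε j) H (Q j) x * Bep (ε j) H (Q j) x - Bep (ε j) H (Q j) x) *
    (Bep (ε j) H (Q j) x * Bep (ε j) H (Q j) x - Bep (ε j) H (Q j) x))).re) atTop (𝓝 0)) →
  (∀ C ⊆ T, IsCompact C → Tendsto (fun j => ∫ x in C, dens k (ε j) H (Q j) x *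
    ((Matrix.trace (Bep (ε j) H (Q j) x)).re - k) ^ 2) atTop (𝓝 0)) →
  (∀ x ∈ T, P x * P x = P x) ∧ (∀ x ∈ T, Matrix.trace (P x) = k) ∧
  (∀ x ∈ T, P x * H x = H x * (P x)ᴴ) ∧ InvH R fun x => P x * H x

/-- PAR. Holomorphic orthogonal projectors are parallel. USES: WIRT, MCAL.
PROOF. `P H = H Pᴴ` is Hermitian. `cdbM l (P H) = P cdbM l H = P H (Gam H l)ᴴ` (`P` holomorphic), so `cdM l (P H) = (cdbM l (P H))ᴴ = Gam H l * H Pᴴ =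
Gam H l * P H`; and `cdM l (P H) = cdM l P * H + P * Gam H l * H`. -/
def S_PARP : Prop := ∀ {n : ℕ} (W : Set (Cn n)), IsOpen W →
  ∀ H P : Cn n → Matrix (Fin n) (Fin n) ℂ, (∀ x ∈ W, (H x).PosDef) →
  (∀ i j, ContDiffOn ℝ ∞ (fun x => H x i j) W) → (∀ i j, DifferentiableOn ℂ (fun x => P x i j) W) →
  (∀ x ∈ W, P x * H x = H x * (P x)ᴴ) → ∀ x ∈ W, ∀ l,
  cdM l P x = Gam H l x * P x - P x * Gam H l x ∧
  cdM l (fun y => P y * H y) x = Gam H l x * (P x * H x) ∧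
  ∀ m, cdbM m (Gam H l) x * P x = P x * cdbM m (Gam H l) x

/-- NULA. The curvature of the limit direction vanishes. USES: DETI, CSY, LPR (the first remark of its proof), INVK.
PROOF. `ε² KKt H Q = (crvP H (H⁻¹ B) (H⁻¹ B)).re` (`ε Q⁻¹ = H⁻¹ B`), `B = B_j`. `∫_C dens_j |ε_j KKt| → 0` by hypothesis, so `∫_C dens_j |crvP H (H⁻¹ B_j) (H⁻¹ B_j)|.re → 0`
(`ε_j` is bounded), and `crvP` is a polynomial in the entries of `B_j` with continuous coefficients, `B_j`, `P` are bounded on `C`: `∫_C dens_j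
|(crvP H (H⁻¹ P) (H⁻¹ P)).re| → 0`. So the continuous function `(crvP H (H⁻¹ P) (H⁻¹ P) x).re` vanishes. -/
def S_NULA : Prop := ∀ {n : ℕ} (T : Set (Cn n)) {G : Type u} [Group G]
  (R : G → Cn n → Cn n → Prop) (H : Cn n → Matrix (Fin n) (Fin n) ℂ), KEt T R H → RBC H T →
  ∀ (k : ℕ) (ε : ℕ → ℝ) (Q : ℕ → Cn n → Matrix (Fin n) (Fin n) ℂ)
  (P : Cn n → Matrix (Fin n) (Fin n) ℂ), (∀ j, 0 < ε j ∧ ε j ≤ 1) →
  (∀ j, TKE T R H (ε j) (Q j)) →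
  (∀ C ⊆ T, IsCompact C → ∃ B : ℝ, ∀ j, ∀ x ∈ C, ∀ a c, ‖Bep (ε j) H (Q j) x a c‖ ≤ B) →
  (∀ i j, DifferentiableOn ℂ (fun x => P x i j) T) →
  (∃ C : ℝ, ∀ j, ∀ x ∈ T, dens k (ε j) H (Q j) x ≤ C) →
  (∀ C ⊆ T, IsCompact C → ∀ a c, Tendsto (fun j => ∫ x in C, dens k (ε j) H (Q j) x *
    ‖Bep (ε j) H (Q j) x a c - P x a c‖) atTop (𝓝 0)) →
  (∀ C ⊆ T, IsCompact C → 0 < volume C → ∃ c > 0, ∀ j, c ≤ ∫ x in C, dens k (ε j) H (Q j) x) →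
  (∀ C ⊆ T, IsCompact C → Tendsto (fun j => ∫ x in C, dens k (ε j) H (Q j) x *
    (ε j * (- KKt H (Q j) x))) atTop (𝓝 0)) →
  ∀ x ∈ T, (crvP H ((H x)⁻¹ * P x) ((H x)⁻¹ * P x) x).re = 0

/-- NULB. The limit direction is in the nullity. USES: CSY, SGN, PARP.
PROOF. `F := {f | ∑ i, f i P i j = f j … }`: vectors `v` with `Pᵀ v = v`. `K := H⁻¹ P` is positive semidefinite (`= H⁻¹ (P H) H⁻¹`, `P H = P H Pᴴ`) and for `f ∈ F`
`K - c conj(f) ⊗ f` is positive semidefinite for small `c > 0` (`K` is the inverse of `H` on `F`). `SGN` with `√c f`: `0 = 2 crvP ≤ c² R(f,f,f,f) ≤ 0` (`NHC`).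
So `R(f,f,f,f) = 0` on `F`, by polarization and the symmetries `R(f₁,f₂,f₃,f₄) = 0` for `f_i ∈ F`. `PARP`, last item: `(cdbM m (Gam H l)) P = P (…)`,
multiply by `H`, `P H = H Pᴴ`: `∑ p, P i p crv p j l m = ∑ q, crv i q l m conj (P j q)`. Exchanging `i ↔ l` and `j ↔ m` by `CSY`: applying `P` to the first, to the third,
or `conj P` to the second or fourth index gives the same result. With `P² = P` it is equal to the result of applying `P` to all four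
indices, which is `R` on vectors of `F`: zero. -/
def S_NULB : Prop := ∀ {n : ℕ} (W : Set (Cn n)), IsOpen W →
  ∀ H P : Cn n → Matrix (Fin n) (Fin n) ℂ, (∀ x ∈ W, (H x).PosDef) → CHF H W → NHC H W →
  (∀ i j, DifferentiableOn ℂ (fun x => P x i j) W) → (∀ x ∈ W, P x * P x = P x) →
  (∀ x ∈ W, P x * H x = H x * (P x)ᴴ) →
  (∀ x ∈ W, (crvP H ((H x)⁻¹ * P x) ((H x)⁻¹ * P x) x).re = 0) →
  ∀ x ∈ W, ∀ i j l m, ∑ p, P x i p * crv H x p j l m = 0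

/-! COREP (assembly, the goal is `S_COREP` of `Helper57/HS/DefsB.lean`). USES: all goals above, PUE, DETI.
PROOF. `HerT` from `KEt`; `RBC` (`SGN`). `κ` (`PUE`), `k`, `p` (`VOLP`), `ε_j := 1/(j+1)`, `Q_j` (TKE). `K` and `u_j := log dens_j` (`QPD`), `exp u_j = dens_j`. `Z_j x := Bep` (index type
`Fin n × Fin n`), smooth (`MCAL`), bounded on compact sets (`UB` with `η = ε_j H`, `c = ε_j`; `DBB`), `DBZ`: `LIMG` gives `φ` and `P`. Put `ε' := ε ∘ φ`, `Q' := Q ∘ φ`. `L1Q`, `LOWQ` for the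
lower bound. `CONC` and `AVC` for the functions `tr ((B² - B)²)`, `(tr B - k)²`, `ε (-KKt)` (continuous: `MCAL`, `INVK`; invariant: `IFN`, `INVK`; `≥ 0`: `LAC`, `RBC`). `LPR`, `PARP`, `NULA`, `NULB`.
`vol`: for `κ'` another partition function `VolP T κ' H = VolP T κ H` (`KAPI` with `ρ = det (rho H + s H).re`, `RHOI`), and `V(s)/s^k = p(s) → p(0) > 0`. -/

end Pool.Agent.Helper15.HS
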