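import Pool.Agent.Helper15.HS.Asm
import Pool.Agent.Helper70.HS.KETP
import Pool.Agent.Helper8.HS.MOMV

/-! # HS-MOMG from MOMV; the core of HS: `t_COREP` -/

open Complex Metric Set Filter Topology MeasureTheory
open scoped ContDiff ComplexConjugate ComplexOrder Manifold Matrix

namespace Pool.Agent.Helper15.HS.Asm

open Pool.Agent.Helper10.SP.Asm Pool.Agent.Helper95.Lin Pool.Agent.Helper10.SP
  Pool.Agent.Helper57.HS

universe u v

theorem t_KETP : Pool.Agent.Helper95.HS.S_KETP.{u} :=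
  Pool.Agent.Helper70.HS.ketp t_LMF t_WCH t_DETI t_ARRB t_PUE t_LMID

theorem t_MOMV : Pool.Agent.Helper95.HS.S_MOMV.{u} :=
  Pool.Agent.Helper8.HS.momv t_WIRT t_LMF t_WCH t_DIVC t_KETP

theorem t_MOMG : S_MOMG.{u} := fun T _ _ R H hK κ hκ Z hZ hI w hw =>
  t_MOMV T R H hK κ hκ Z w hZ hI hw

theorem t_COREP' : S_COREP.{u} := t_COREP t_MOMG

end Pool.Agent.Helper15.HS.Asm
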