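import Pool.Agent.Helper15.HS.L1Q
import Pool.Agent.Helper45.HS.MatC
import Pool.Agent.Helper70.HS.IFN
import Pool.Agent.Helper70.HS.VOLP

/-! # HS: assembly of `S_COREP` -/

open Complex Metric Set Filter Topology MeasureTheory
open scoped ContDiff ComplexConjugate ComplexOrder Manifold Matrix

namespace Pool.Agent.Helper15.HS

open Pool.Agent.Helper95.Lin Pool.Agent.Helper16.Abund Pool.Agent.Helper92.Orb
  Pool.Agent.Helper10.SP Pool.Agent.Helper95.RK Pool.Agent.Helper57.HS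
open Pool.Agent.Helper45.HS (SmM)

universe u v

/-- The determinant of an invariant form is an invariant density. -/
theorem det_density {n : ℕ} {G : Type u} {R : G → Cn n → Cn n → Prop}
    {X : Cn n → Matrix (Fin n) (Fin n) ℂ} (hX : InvH R X) (U : Set (Cn n)) (τ : Cn n → Cn n)
    (hA : Arr R U τ) (x : Cn n) (hx : x ∈ U) :
    (X x).det.re = (X (τ x)).det.re * ‖(fderiv ℂ τ x).det‖ ^ 2 := by
  have h := Pool.Agent.Helper70.HS.form_mat _ _ _ (hX U τ hA x hx)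
  rw [h, Matrix.det_mul, Matrix.det_mul, Matrix.det_conjTranspose,
    Pool.Agent.Helper70.HS.det_Jt]
  have h2 : (fderiv ℂ τ x).det * (X (τ x)).det * star (fderiv ℂ τ x).det =
      ((‖(fderiv ℂ τ x).det‖ ^ 2 : ℝ) : ℂ) * (X (τ x)).det := by
    rw [Complex.star_def, mul_right_comm, Complex.mul_conj, Complex.normSq_eq_norm_sq]
  rw [h2, Complex.re_ofReal_mul, mul_comm]

theorem invH_add {n : ℕ} {G : Type u} {R : G → Cn n → Cn n → Prop}
    {X Y : Cn n → Matrix (Fin n) (Fin n) ℂ} (hX : InvH R X) (hY : InvH R Y) :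
    InvH R fun x => X x + Y x := by
  intro U τ hA x hx u w
  have hl : ∀ (A B : Matrix (Fin n) (Fin n) ℂ) (u v : Cn n),
      hermi (A + B) u v = hermi A u v + hermi B u v := by
    intro A B u v
    unfold hermi
    rw [← Finset.sum_add_distrib]
    refine Finset.sum_congr rfl fun i _ => ?_
    rw [← Finset.sum_add_distrib]
    refine Finset.sum_congr rfl fun j _ => ?_
    simp only [Matrix.add_apply]
    ring
  rw [hl, hl, hX U τ hA x hx, hY U τ hA x hx]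

theorem invH_smul {n : ℕ} {G : Type u} {R : G → Cn n → Cn n → Prop}
    {X : Cn n → Matrix (Fin n) (Fin n) ℂ} (hX : InvH R X) (c : ℂ) :
    InvH R fun x => c • X x := by
  intro U τ hA x hx u w
  have hl : ∀ (A : Matrix (Fin n) (Fin n) ℂ) (u v : Cn n),
      hermi (c • A) u v = c * hermi A u v := by
    intro A u v
    unfold hermi
    rw [Finset.mul_sum]
    refine Finset.sum_congr rfl fun i _ => ?_
    rw [Finset.mul_sum]
    refine Finset.sum_congr rfl fun j _ => ?_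
    simp only [Matrix.smul_apply, smul_eq_mul]
    ring
  rw [hl, hl, hX U τ hA x hx]

/-- The volume polynomial does not depend on the partition function. -/
theorem volP_indep (hKAPI : S_KAPI.{u}) (hRHOI : S_RHOI.{u}) {n : ℕ} {T : Set (Cn n)}
    {G : Type u} [Group G] {R : G → Cn n → Cn n → Prop}
    {H : Cn n → Matrix (Fin n) (Fin n) ℂ} (hK : KEt T R H) {κ κ' : Cn n → ℝ}
    (hκ : IsPUE T R κ) (hκ' : IsPUE T R κ') (s : ℝ) : VolP T κ' H s = VolP T κ H s := by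
  have hHer : HerT T R H := ⟨hK.posDef, hK.smooth, hK.inv⟩
  obtain ⟨h1, h2, -⟩ := hRHOI T R H hK.et hHer
  unfold VolP
  refine hKAPI T R hK.et κ' κ hκ' hκ (fun x => (rho H x + (s : ℂ) • H x).det.re) ?_ ?_
  · have h3 : SmM (fun x => rho H x + (s : ℂ) • H x) T :=
      SmM.add (X := rho H) h1.smooth (SmM.smul contDiffOn_const hK.smooth)
    exact Complex.continuous_re.comp_continuousOn h3.det.continuousOn
  · exact fun U τ hA x hx => det_density (invH_add h2 (invH_smul hK.inv _)) U τ hA x hx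

theorem corep (hPUE : S_PUE.{u}) (hDETI : S_DETI.{u}) (hSGN : S_SGN) (hIFN : S_IFN.{u})
    (hUB : S_UB.{u}) (hDBB : S_DBB.{u}) (hKAPI : S_KAPI.{u}) (hRHOI : S_RHOI.{u})
    (hVOLP : S_VOLP.{u}) (hLAC : S_LAC) (hCONC : S_CONC.{u}) (hQPD : S_QPD.{u})
    (hLOWQ : S_LOWQ.{u}) (hLIMG : S_LIMG.{u}) (hAVC : S_AVC.{u}) (hINVK : S_INVK.{u})
    (hDBZ : S_DBZ.{u}) (hLPR : S_LPR.{u}) (hPARP : S_PARP) (hNULA : S_NULA.{u})
    (hNULB : S_NULB) : S_COREP.{u} := by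
  intro n T G _ R H hK hN hex
  have hTo : IsOpen T := hK.et.isOpen
  have hHer : HerT T R H := ⟨hK.posDef, hK.smooth, hK.inv⟩
  have hCHF : CHF H T := ⟨hK.smooth, fun x hx => (hK.posDef x hx).isHermitian, hK.closed⟩
  have hRBC : RBC H T := (hSGN T hTo H hK.posDef hCHF hN).2
  obtain ⟨κ, hκ⟩ := hPUE T R hK.et
  obtain ⟨hV1, k, p, hk, hp, hV⟩ := hVOLP T R H hK κ hκ hex
  set ε₀ : ℕ → ℝ := fun j => 1 / ((j : ℝ) + 1) with hε₀
  have he0 : ∀ j, 0 < ε₀ j := fun j => by positivity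
  have he1 : ∀ j, ε₀ j ≤ 1 := fun j => by
    rw [hε₀]
    simp only
    rw [div_le_one (by positivity)]
    have : (0 : ℝ) ≤ j := Nat.cast_nonneg j
    linarith
  have helim : Tendsto ε₀ atTop (𝓝 0) := tendsto_one_div_add_atTop_nhds_zero_nat
  choose Q₀ hQ₀ using fun j => hex (ε₀ j) (he0 j)
  obtain ⟨K, hKpos, hQPF, hQtr⟩ := hQPD T R H hK κ hκ hex k p hp hV
  have hub : ∀ (ε : ℝ) (Q : Cn n → Matrix (Fin n) (Fin n) ℂ), 0 < ε → TKE T R H ε Q →
      ∀ x ∈ T, ε * (Matrix.trace (H x * (Q x)⁻¹)).re ≤ n := by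
    intro ε Q hε hQ x hx
    have h1 := hUB T R Q H (fun x => (ε : ℂ) • H x) hQ.ket hHer hRBC hQ.eq ε hε (by
      intro x hx
      rw [sub_self]
      exact Matrix.PosSemidef.zero) x hx
    rw [le_div_iff₀ hε] at h1
    linarith
  have hsmB : ∀ (ε : ℝ) (Q : Cn n → Matrix (Fin n) (Fin n) ℂ), TKE T R H ε Q →
      SmM (Bep ε H Q) T := by
    intro ε Q hQ
    have h1 : SmM (fun x => (Q x)⁻¹) T := SmM.inv hQ.ket.smooth fun x hx =>
      (hQ.ket.posDef x hx).isUnit.map Matrix.detMonoidHom |>.ne_zero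
    exact SmM.smul contDiffOn_const (SmM.mul hK.smooth h1)
  have hbd : ∀ C ⊆ T, IsCompact C → ∃ B : ℝ, ∀ (ε : ℝ) (Q : Cn n → Matrix (Fin n) (Fin n) ℂ),
      0 < ε → TKE T R H ε Q → ∀ x ∈ C, ∀ a c, ‖Bep ε H Q x a c‖ ≤ B := by
    intro C hC hCc
    obtain ⟨B, hB⟩ := hDBB T R H hHer C hC hCc
    exact ⟨B, fun ε Q hε hQ x hx a c => (hB ε Q hε hQ.ket (hub ε Q hε hQ) x hx).1 a c⟩
  have hexp : ∀ (ε : ℝ) (Q : Cn n → Matrix (Fin n) (Fin n) ℂ), 0 < ε → ε ≤ 1 →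
      TKE T R H ε Q → ∀ x ∈ T, Real.exp (Real.log (dens k ε H Q x)) = dens k ε H Q x :=
    fun ε Q h1 h2 h3 x hx => Real.exp_log ((hQPF ε Q h1 h2 h3).2 x hx)
  -- the limit
  obtain ⟨φ, hφ, P', hP'1, hP'2⟩ := hLIMG (ι := Fin n × Fin n) T R H hK K
    (fun j x => Real.log (dens k (ε₀ j) H (Q₀ j) x))
    (fun j x c => Bep (ε₀ j) H (Q₀ j) x c.1 c.2)
    (fun j => (hQPF (ε₀ j) (Q₀ j) (he0 j) (he1 j) (hQ₀ j)).1)
    (fun j c => hsmB (ε₀ j) (Q₀ j) (hQ₀ j) c.1 c.2)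
    (fun C hC hCc => by
      obtain ⟨B, hB⟩ := hbd C hC hCc
      exact ⟨B, fun j x hx c => hB (ε₀ j) (Q₀ j) (he0 j) (hQ₀ j) x hx c.1 c.2⟩)
    (fun C hC hCc l c => by
      have h1 := hDBZ T R H hK hRBC κ hκ hex k p hk hp hV ε₀ Q₀ he0 he1 helim hQ₀ C hC hCc l
        c.1 c.2
      refine h1.congr fun j => ?_
      refine setIntegral_congr_fun hCc.measurableSet fun x hx => ?_
      show _ = Real.exp (Real.log (dens k (ε₀ j) H (Q₀ j) x)) * _
      rw [hexp (ε₀ j) (Q₀ j) (he0 j) (he1 j) (hQ₀ j) x (hC hx)])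
  set P : Cn n → Matrix (Fin n) (Fin n) ℂ := fun x => Matrix.of fun i j => P' x (i, j) with hP
  set ε : ℕ → ℝ := fun j => ε₀ (φ j) with hε
  set Q : ℕ → Cn n → Matrix (Fin n) (Fin n) ℂ := fun j => Q₀ (φ j) with hQ
  have hpos : ∀ j, 0 < ε j := fun j => he0 _
  have hle1 : ∀ j, ε j ≤ 1 := fun j => he1 _
  have hlim : Tendsto ε atTop (𝓝 0) := helim.comp hφ.tendsto_atTop
  have htke : ∀ j, TKE T R H (ε j) (Q j) := fun j => hQ₀ _
  have hholo : ∀ i j, DifferentiableOn ℂ (fun x => P x i j) T := fun i j => hP'1 (i, j)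
  have hconv : ∀ C ⊆ T, IsCompact C → ∀ a c, Tendsto (fun j => ∫ x in C,
      dens k (ε j) H (Q j) x * ‖Bep (ε j) H (Q j) x a c - P x a c‖) atTop (𝓝 0) := by
    intro C hC hCc a c
    refine (hP'2 C hC hCc (a, c)).congr fun j => ?_
    refine setIntegral_congr_fun hCc.measurableSet fun x hx => ?_
    show Real.exp (Real.log (dens k (ε j) H (Q j) x)) * _ = _
    rw [hexp (ε j) (Q j) (hpos j) (hle1 j) (htke j) x (hC hx)]
    rfl
  have hbdd : ∃ C : ℝ, ∀ j, ∀ x ∈ T, dens k (ε j) H (Q j) x ≤ C := by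
    refine ⟨Real.exp K, fun j x hx => ?_⟩
    rw [← hexp (ε j) (Q j) (hpos j) (hle1 j) (htke j) x hx]
    exact Real.exp_le_exp.2 ((hQPF (ε j) (Q j) (hpos j) (hle1 j) (htke j)).1.le x hx)
  have hlow : ∀ C ⊆ T, IsCompact C → 0 < volume C →
      ∃ c > 0, ∀ j, c ≤ ∫ x in C, dens k (ε j) H (Q j) x := by
    intro C hC hCc hv
    obtain ⟨c, hc, h⟩ := hLOWQ T R H hK K C hC hCc hv
    refine ⟨c, hc, fun j => ?_⟩
    have h1 := h _ (hQPF (ε j) (Q j) (hpos j) (hle1 j) (htke j)).1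
    refine h1.trans (le_of_eq ?_)
    refine setIntegral_congr_fun hCc.measurableSet fun x hx => ?_
    exact hexp (ε j) (Q j) (hpos j) (hle1 j) (htke j) x (hC hx)
  obtain ⟨hc1, hc2, hc3, hc4⟩ := hCONC T R H hK hRBC κ hκ k p hk hp hV ε Q hpos hlim htke
  obtain ⟨C0, hC0, hlac⟩ := hLAC n
  have htn : ∀ j, ∀ x ∈ T, (Matrix.trace (Bep (ε j) H (Q j) x)).re ≤ n := by
    intro j x hx
    have h1 := hub (ε j) (Q j) (hpos j) (htke j) x hx
    have h2 : (Matrix.trace (Bep (ε j) H (Q j) x)).re =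
        ε j * (Matrix.trace (H x * (Q j x)⁻¹)).re := by
      unfold Bep
      rw [Matrix.trace_smul, smul_eq_mul, Complex.re_ofReal_mul]
    rw [h2]
    exact h1
  have hBform : ∀ j, ∀ x, Bep (ε j) H (Q j) x = ((ε j : ℂ) • H x) * (Q j x)⁻¹ := by
    intro j x
    unfold Bep
    rw [Matrix.smul_mul]
  have hEpos : ∀ j, ∀ x ∈ T, ((ε j : ℂ) • H x).PosDef := fun j x hx => by
    have := (hK.posDef x hx).smul (show (0 : ℂ) < (ε j : ℂ) by exact_mod_cast hpos j)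
    exact this
  have hsqn : ∀ j, ∀ x ∈ T, 0 ≤ (Matrix.trace (
      (Bep (ε j) H (Q j) x * Bep (ε j) H (Q j) x - Bep (ε j) H (Q j) x) *
      (Bep (ε j) H (Q j) x * Bep (ε j) H (Q j) x - Bep (ε j) H (Q j) x))).re := fun j x hx =>
    (hlac ((ε j : ℂ) • H x) (Q j x) (Bep (ε j) H (Q j) x) (hEpos j x hx)
      ((htke j).ket.posDef x hx) (hBform j x) (htn j x hx)).2.2.1
  have hBinv : ∀ j γ x y, R γ x y → ∃ J : Matrix (Fin n) (Fin n) ℂ, J.det ≠ 0 ∧
      Bep (ε j) H (Q j) x = J * Bep (ε j) H (Q j) y * J⁻¹ := by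
    intro j γ x y hxy
    have hQer : HerT T R (Q j) := ⟨(htke j).ket.posDef, (htke j).ket.smooth, (htke j).ket.inv⟩
    obtain ⟨J, hJ, -, -, h⟩ := (hIFN T R hK.et (Q j) H hQer hK.inv).1 γ x y hxy
    refine ⟨J, hJ, ?_⟩
    unfold Bep
    rw [h, Matrix.mul_smul, Matrix.smul_mul]
  have hJJ : ∀ (J B : Matrix (Fin n) (Fin n) ℂ), J.det ≠ 0 → ∀ A : Matrix (Fin n) (Fin n) ℂ,
      J * B * J⁻¹ * (J * A * J⁻¹) = J * (B * A) * J⁻¹ := by
    intro J B hJ A
    have hu : IsUnit J.det := isUnit_iff_ne_zero.2 hJ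
    calc J * B * J⁻¹ * (J * A * J⁻¹) = J * B * (J⁻¹ * J) * A * J⁻¹ := by
          simp only [Matrix.mul_assoc]
      _ = _ := by rw [Matrix.nonsing_inv_mul _ hu, Matrix.mul_one]; simp only [Matrix.mul_assoc]
  have hsqc : ∀ j, SmM (fun x =>
      (Bep (ε j) H (Q j) x * Bep (ε j) H (Q j) x - Bep (ε j) H (Q j) x) *
      (Bep (ε j) H (Q j) x * Bep (ε j) H (Q j) x - Bep (ε j) H (Q j) x)) T := by
    intro j
    have h1 := hsmB (ε j) (Q j) (htke j)
    have h2 : SmM (fun x => Bep (ε j) H (Q j) x * Bep (ε j) H (Q j) x - Bep (ε j) H (Q j) x) T :=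
      (h1.mul h1).sub h1
    exact h2.mul h2
  have ha1 : ∀ C ⊆ T, IsCompact C → Tendsto (fun j => ∫ x in C, dens k (ε j) H (Q j) x *
      (Matrix.trace (
      (Bep (ε j) H (Q j) x * Bep (ε j) H (Q j) x - Bep (ε j) H (Q j) x) *
      (Bep (ε j) H (Q j) x * Bep (ε j) H (Q j) x - Bep (ε j) H (Q j) x))).re) atTop (𝓝 0) := by
    intro C hC hCc
    refine hAVC T R H hK κ hκ hex k p hp hV ε Q hpos hlim htke _
      (fun j => Complex.continuous_re.comp_continuousOn (hsqc j).trace.continuousOn) hsqn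
      (fun j γ x y hxy => ?_) hc1 C hC hCc
    obtain ⟨J, hJ, h⟩ := hBinv j γ x y hxy
    have h1 : Bep (ε j) H (Q j) x * Bep (ε j) H (Q j) x - Bep (ε j) H (Q j) x =
        J * (Bep (ε j) H (Q j) y * Bep (ε j) H (Q j) y - Bep (ε j) H (Q j) y) * J⁻¹ := by
      rw [h, hJJ J _ hJ, Matrix.mul_sub, Matrix.sub_mul]
    simp only [Function.comp_apply]
    rw [h1, hJJ J _ hJ, (Pool.Agent.Helper70.HS.conj_arrow hJ _).1]
  have ha2 : ∀ C ⊆ T, IsCompact C → Tendsto (fun j => ∫ x in C, dens k (ε j) H (Q j) x *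
      ((Matrix.trace (Bep (ε j) H (Q j) x)).re - k) ^ 2) atTop (𝓝 0) := by
    intro C hC hCc
    refine hAVC T R H hK κ hκ hex k p hp hV ε Q hpos hlim htke _
      (fun j => ?_) (fun j x _ => sq_nonneg _)
      (fun j γ x y hxy => ?_) hc2 C hC hCc
    · exact ((Complex.continuous_re.comp_continuousOn
        (hsmB (ε j) (Q j) (htke j)).trace.continuousOn).sub continuousOn_const).pow 2
    · obtain ⟨J, hJ, h⟩ := hBinv j γ x y hxy
      rw [h, (Pool.Agent.Helper70.HS.conj_arrow hJ _).1]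
  have hQer : ∀ j, HerT T R (Q j) := fun j =>
    ⟨(htke j).ket.posDef, (htke j).ket.smooth, (htke j).ket.inv⟩
  have ha3 : ∀ C ⊆ T, IsCompact C → Tendsto (fun j => ∫ x in C, dens k (ε j) H (Q j) x *
      (ε j * (- KKt H (Q j) x))) atTop (𝓝 0) := by
    intro C hC hCc
    refine hAVC T R H hK κ hκ hex k p hp hV ε Q hpos hlim htke _
      (fun j => ?_) (fun j x hx => ?_)
      (fun j γ x y hxy => ?_) hc3 C hC hCc
    · exact continuousOn_const.mul ((hINVK T R hK.et H (Q j) hHer (hQer j)).1.neg)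
    · have h1 : KKt H (Q j) x ≤ 0 :=
        hRBC x hx _ ((htke j).ket.posDef x hx).inv.posSemidef
      have h2 := (hpos j).le
      exact mul_nonneg h2 (by linarith)
    · rw [((hINVK T R hK.et H (Q j) hHer (hQer j)).2.2.1 γ x y hxy).1]
  obtain ⟨q1, q2, q3, q4⟩ := hLPR T R H hK hRBC k ε Q P hpos htke hholo hbdd hconv hlow ha1 ha2
  have q5 := hNULA T R H hK hRBC k ε Q P (fun j => ⟨hpos j, hle1 j⟩) htke
    (fun C hC hCc => by
      obtain ⟨B, hB⟩ := hbd C hC hCc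
      exact ⟨B, fun j x hx a c => hB (ε j) (Q j) (hpos j) (htke j) x hx a c⟩)
    hholo hbdd hconv hlow ha3
  have q6 := hNULB T hTo H P hK.posDef hCHF hN hholo q1 q3 q5
  refine ⟨k, P, hk, hholo, q1, q2, q3, q4, fun x hx l => ?_, q6, fun κ' hκ' => ?_⟩
  · exact (hPARP T hTo H P hK.posDef hK.smooth hholo q3 x hx l).1
  · refine ⟨p.eval 0, hp, ?_⟩
    have h1 : Tendsto (fun s : ℝ => p.eval s) (𝓝[>] 0) (𝓝 (p.eval 0)) :=
      (p.continuous.tendsto 0).mono_left nhdsWithin_le_nhds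
    refine h1.congr' ?_
    filter_upwards [self_mem_nhdsWithin] with s hs
    have hs' : (0 : ℝ) < s := hs
    rw [volP_indep hKAPI hRHOI hK hκ hκ' s, hV s]
    field_simp

end Pool.Agent.Helper15.HS
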