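import Pool.Agent.Helper15.HS.AsmC
import Pool.Agent.Helper10.SP.Asm
import Pool.Agent.Helper80.HS.MCAL
import Pool.Agent.Helper80.HS.CSY
import Pool.Agent.Helper80.HS.CL
import Pool.Agent.Helper87.HS.CLG
import Pool.Agent.Helper16.HS.SGN
import Pool.Agent.Helper91.HS.UB
import Pool.Agent.Helper62.HS.DBB
import Pool.Agent.Helper90.HS.KAPI
import Pool.Agent.Helper70.HS.RHOI
import Pool.Agent.Helper70.HS.INVK
import Pool.Agent.Helper75.HS.LAC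
import Pool.Agent.Helper75.HS.CONC
import Pool.Agent.Helper91.HS.LOCB
import Pool.Agent.Helper91.HS.AVC
import Pool.Agent.Helper90.HS.RHB
import Pool.Agent.Helper11.HS.SUBM
import Pool.Agent.Helper38.HS.QPD
import Pool.Agent.Helper90.HS.LOWQ
import Pool.Agent.Helper69.HS.CHN
import Pool.Agent.Helper87.HS.ENER
import Pool.Agent.Helper63.HS.PMP
import Pool.Agent.Helper94.HS.MLB
import Pool.Agent.Helper90.HS.DIAG
import Pool.Agent.Helper90.HS.ARZ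
import Pool.Agent.Helper77.HS.DBC
import Pool.Agent.Helper33.HS.LIMG
import Pool.Agent.Helper56.HS.DBZ
import Pool.Agent.Helper19.HS.LPR
import Pool.Agent.Helper87.HS.NULA
import Pool.Agent.Helper25.HS.NULB
import Pool.Agent.Helper46.HS.SMV1
import Pool.Agent.Helper58.HS.SOB2
import Pool.Agent.Helper84.HS.ENG1
import Pool.Agent.Helper87.HS.LP1
import Pool.Agent.Helper32.HS.LPN
import Pool.Agent.Helper32.HS.LPL
import Pool.Agent.Helper85.HS.LPQ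

/-! Assembly of the core of HS: `t_COREP : S_MOMG → S_COREP`. -/

namespace Pool.Agent.Helper15.HS.Asm

open Pool.Agent.Helper10.SP.Asm

universe u v

theorem t_MCAL : S_MCAL := Pool.Agent.Helper80.HS.mcal t_WIRT
theorem t_CSY : S_CSY := Pool.Agent.Helper80.HS.csy t_WIRT t_MCAL
theorem t_PARP : S_PARP := Pool.Agent.Helper80.HS.parp t_WIRT t_MCAL
theorem t_CLG : S_CLG := Pool.Agent.Helper87.HS.clg t_WIRT t_MCAL t_CSY
theorem t_CL : S_CL := Pool.Agent.Helper80.HS.cl t_MCAL t_CSY t_CLG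
theorem t_SGN : S_SGN := Pool.Agent.Helper16.HS.SGNP.sgn t_CSY
theorem t_IFN : S_IFN.{u} := Pool.Agent.Helper70.HS.ifn t_ARRB
theorem t_UB : S_UB.{u} := Pool.Agent.Helper91.HS.ub t_LMF t_CL t_IFN
theorem t_DBB : S_DBB.{u} := Pool.Agent.Helper62.HS.dbb t_MCAL t_CLG
theorem t_KAPI : S_KAPI.{u} := Pool.Agent.Helper90.HS.kapi t_SWAP
theorem t_RHOI : S_RHOI.{u} := Pool.Agent.Helper70.HS.rhoi t_WIRT t_WCH t_LMF t_ARRB t_MCAL
theorem t_INVK : S_INVK.{u} := Pool.Agent.Helper70.HS.invk t_WCH t_ARRB t_CSY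
theorem t_LAC : S_LAC := Pool.Agent.Helper75.HS.lac
theorem t_LOCB : S_LOCB.{u} := Pool.Agent.Helper91.HS.locb t_ARRB t_DETI
theorem t_RHB : S_RHB.{u} := Pool.Agent.Helper90.HS.rhb
theorem t_SUBM : S_SUBM := Pool.Agent.Helper11.HS.subm
theorem t_DIAG : S_DIAG := Pool.Agent.Helper90.HS.diag
theorem t_ARZ : S_ARZ := Pool.Agent.Helper90.HS.arz t_DIAG
theorem t_PMP : S_PMP := Pool.Agent.Helper63.HS.pmp
theorem t_MLB : S_MLB := Pool.Agent.Helper94.HS.mlb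
theorem t_DBC : S_DBC := Pool.Agent.Helper77.HS.dbc t_WIRT t_PMP t_MLB t_ARZ t_HOLL
theorem t_CHN : Pool.Agent.Helper95.HS.S_CHN := Pool.Agent.Helper69.HS.chn t_WIRT
theorem t_ENER : S_ENER.{u} := Pool.Agent.Helper87.HS.ener t_CHN t_WIRT t_PUE t_DETI t_LMID t_L2C
theorem t_LIMG : S_LIMG.{u} := Pool.Agent.Helper33.HS.limg t_WIRT t_ENER t_DBC
theorem t_LPR : S_LPR.{u} := Pool.Agent.Helper19.HS.lpr t_ARRB t_DETI t_UB t_DBB
theorem t_NULA : S_NULA.{u} := Pool.Agent.Helper87.HS.nula t_DETI t_INVK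
theorem t_NULB : S_NULB := Pool.Agent.Helper25.HS.nulb t_CSY t_SGN t_PARP
theorem t_LP1 : Pool.Agent.Helper95.HS.S_LP1 :=
  Pool.Agent.Helper87.HS.lp1 Pool.Agent.Helper58.HS.sob2
    (Pool.Agent.Helper84.HS.eng1 Pool.Agent.Helper46.HS.smv1)
theorem t_LPL : Pool.Agent.Helper95.HS.S_LPL.{u} :=
  Pool.Agent.Helper32.HS.lpl (Pool.Agent.Helper32.HS.lpn t_LP1) t_LMF
theorem t_LPQ : Pool.Agent.Helper95.HS.S_LPQ.{u} := Pool.Agent.Helper85.HS.lpq t_LPL t_DETI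
theorem t_L1Q : S_L1Q.{u} := l1q t_PUE t_DETI t_LOCB t_LPQ
theorem t_LOWQ : S_LOWQ.{u} := Pool.Agent.Helper90.HS.lowq t_L1Q

theorem t_VOLP (h : S_MOMG.{u}) : S_VOLP.{u} := Pool.Agent.Helper70.HS.volp t_DETI h t_RHOI
theorem t_CONC (h : S_MOMG.{u}) : S_CONC.{u} :=
  Pool.Agent.Helper75.HS.conc t_WIRT t_DETI t_LMID t_CL t_UB t_IFN t_RHOI h
theorem t_AVC (h : S_MOMG.{u}) : S_AVC.{u} :=
  Pool.Agent.Helper91.HS.avc t_ARRB t_DETI (t_VOLP h) t_LOCB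
theorem t_QPD (h : S_MOMG.{u}) : S_QPD.{u} :=
  Pool.Agent.Helper38.HS.QPD.qpd t_RHOI t_LMF (t_VOLP h) t_RHB t_SUBM t_LOCB t_DETI t_LMID t_IFN
theorem t_DBZ (h : S_MOMG.{u}) : S_DBZ.{u} :=
  Pool.Agent.Helper56.HS.dbz t_CL t_UB t_DBB (t_QPD h) (t_CONC h) (t_AVC h) t_INVK

theorem t_COREP (h : S_MOMG.{u}) : Pool.Agent.Helper57.HS.S_COREP.{u} :=
  corep t_PUE t_DETI t_SGN t_IFN t_UB t_DBB t_KAPI t_RHOI (t_VOLP h) t_LAC (t_CONC h) (t_QPD h)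
    t_LOWQ t_LIMG (t_AVC h) t_INVK (t_DBZ h) t_LPR t_PARP t_NULA t_NULB

end Pool.Agent.Helper15.HS.Asm
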