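import Pool.Agent.Helper90.HS.L1Q
import Pool.Agent.Helper95.HS.GoalsA

/-! # HS-L1Q from the `L^p` bounds of `Helper95/HS/GoalsA.lean` -/

open Complex Metric Set Filter Topology MeasureTheory
open scoped ContDiff ComplexConjugate ComplexOrder Manifold Matrix

namespace Pool.Agent.Helper15.HS

open Pool.Agent.Helper95.Lin Pool.Agent.Helper16.Abund Pool.Agent.Helper92.Orb
  Pool.Agent.Helper10.SP Pool.Agent.Helper95.RK Pool.Agent.Helper57.HS
open Pool.Agent.Helper90.HS (LM_sub_const integrableOn_kappa)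

universe u v

/-- L1Q. -/
theorem l1q (hP : S_PUE.{u}) (hD : S_DETI.{u}) (hL : S_LOCB.{u})
    (hA : Pool.Agent.Helper95.HS.S_LPQ.{u}) : S_L1Q.{u} := by
  intro n T G _ R H hK K C hCT hC
  by_cases hK0 : 0 ≤ K
  swap
  · refine ⟨0, fun u hu => ?_⟩
    obtain ⟨x, hx, h1⟩ := hu.ge
    have h2 := hu.le x hx
    linarith
  have hE := hK.et
  have hT := hE.isOpen
  obtain ⟨κ, hκ⟩ := hP T R hE
  obtain ⟨B, hB, hloc⟩ := hL T R H hK κ hκ C hCT hC
  obtain ⟨K', hK'⟩ := hA T R H hK κ hκ (K + 1) 1 le_rfl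
  obtain ⟨hd1, hd2, -⟩ := hD T R H hK
  refine ⟨B * K' + K * volume.real C, fun u hu => ?_⟩
  -- the maximum
  obtain ⟨C₀, hC₀T, hC₀, hcov⟩ := hE.coc
  obtain ⟨y₀, hy₀⟩ := hE.nonempty
  obtain ⟨-, z₀, hz₀, -⟩ := hcov y₀ hy₀
  obtain ⟨x₀, hx₀C, hmax⟩ := hC₀.exists_isMaxOn ⟨z₀, hz₀⟩ (hu.inv.1.continuousOn.mono hC₀T)
  have hx₀ := hC₀T hx₀C
  have hM : ∀ y ∈ T, u y ≤ u x₀ := by
    intro y hy
    obtain ⟨γ, z, hz, hR⟩ := hcov y hy
    rw [← hu.inv.2 γ y z hR]
    exact hmax hz
  have hm : |u x₀| ≤ K := by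
    obtain ⟨x, hx, h1⟩ := hu.ge
    exact abs_le.2 ⟨h1.trans (hM x hx), hu.le x₀ hx₀⟩
  set m := u x₀ with hm_def
  have hw : InvF T R (fun x => u x - m) := by
    refine ⟨hu.inv.1.sub contDiffOn_const, fun γ x y hxy => ?_⟩
    simp only
    rw [hu.inv.2 γ x y hxy]
  have hwc : ContinuousOn (fun x => u x - m) T := hw.1.continuousOn
  have hexp := hK' (fun x => u x - m) hw (by
    intro x hx
    rw [LM_sub_const]
    have e1 : (((K + 1 : ℝ)) : ℂ) • H x + LM u x = (LM u x + (K : ℂ) • H x) + H x := by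
      push_cast
      rw [add_smul, one_smul]
      abel
    rw [e1]
    exact (hu.qp x hx).add (hK.posDef x hx).posSemidef) (by
    intro x hx
    have := hM x hx
    linarith) ⟨x₀, hx₀, by simp only [hm_def, sub_self]⟩
  have h1 := hloc (fun x => |u x - m|) hwc.abs (fun x _ => abs_nonneg _) (by
    intro γ x y hxy
    rw [hu.inv.2 γ x y hxy])
  have h2 : ∫ x in T, κ x * (H x).det.re * |u x - m| ≤ K' := by
    refine le_trans (le_of_eq ?_) hexp
    refine setIntegral_congr_fun hT.measurableSet fun x hx => ?_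
    have e3 : u x - m ≤ 0 := by
      have := hM x hx
      linarith
    show κ x * (H x).det.re * |u x - m| = κ x * (H x).det.re * (-(u x - m)) ^ 1
    rw [abs_of_nonpos e3, pow_one]
  have hfin : volume C ≠ ⊤ := hC.measure_lt_top.ne
  have h4 : IntegrableOn (fun x => |u x - m|) C :=
    (hwc.abs.mono hCT).integrableOn_compact hC
  have h5 : IntegrableOn (fun x => |u x|) C :=
    ((hu.inv.1.continuousOn.abs).mono hCT).integrableOn_compact hC
  have h6 : IntegrableOn (fun _ : Cn n => K) C := integrableOn_const hfin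
  calc ∫ x in C, |u x| ≤ ∫ x in C, (|u x - m| + K) := by
        refine integral_mono h5 (h4.add h6) fun x => ?_
        simp only
        have e1 : |u x| ≤ |u x - m| + |m| := by
          have := abs_add_le (u x - m) m
          rwa [sub_add_cancel] at this
        linarith
    _ = (∫ x in C, |u x - m|) + K * volume.real C := by
        rw [integral_add h4 h6, setIntegral_const, smul_eq_mul, mul_comm]
    _ ≤ B * K' + K * volume.real C := by
        have := mul_le_mul_of_nonneg_left h2 hB.le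
        linarith

end Pool.Agent.Helper15.HS
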